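import Pool.Agent.H7.Qup.Defs
import Pool.Agent.H17EF.PNDefs

/-!
# Coprime binary forms over complex tori: the definitions of the final theorem

`A = ℂ^n / Λ` is a complex torus, `n = k + 1`; `pt Λ y` is the point of `A` given by `y ∈ ℂ^n`.

* `IsBinaryForm`: `F` is a binary form whose coefficients are sections of a positive line bundle on `A`; `IsReducedOverSimple`: `A` is simple, and the divisor `{F = 0}` of `A × ℙ¹` is
  reduced and contains no hypersurface `Γ × ℙ¹`.
* `coprimeForms Λ m F`: the complement `T` in `A × ℙ^m` of the divisor `Res (F y, x) = 0`; `fewZeros Λ n F`: the set of the points of `A` over which the form has less than `n` zeros.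
* `IsFiniteOver`: quasi-projective varieties `U` with a map to `T` which is finite on the closure of `U`.  `FourProperties`: the four properties of the Green–Griffiths–Lang conjecture.
* `IsHyperbolicModulo`, `KobayashiPositive`: hyperbolicity of `T` modulo the fibres over `S`.
-/

set_option autoImplicit false

open Topology Filter MvPolynomial
open Pool.Agent.H17 (PN VanishesAt HolomorphicInto puncturedDisc ZariskiClosedIn)
open Pool.Agent.H17LG.Variety (FunField IsLogGeneralType)
open Pool.Agent.H62.FC (Homog)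
open Pool.Agent.H62.SA (locVar OnBd)
open Pool.Agent.H17EF (projVar)
open Pool.Agent.H7.Bir (vals rmap)

noncomputable section

namespace Pool.Agent.COP

/-- `ℂ^n` -/
abbrev Cn (n : ℕ) : Type := Fin n → ℂ

/-- the subgroups of `ℂ^(k+1)` -/
abbrev Sub (k : ℕ) : Type := AddSubgroup (Cn (k + 1))

variable {k : ℕ}

/-- the torus `ℂ^(k+1) / Λ` -/
abbrev Torus (Λ : Sub k) : Type := Cn (k + 1) ⧸ Λ

/-- the point of the torus given by `y` -/
def pt (Λ : Sub k) (y : Cn (k + 1)) : Torus Λ := (y : Cn (k + 1) ⧸ Λ)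

variable {N m q : ℕ}

/-- the product `A × ℙ^m` -/
abbrev Prd (Λ : Sub k) (m : ℕ) : Type := Torus Λ × PN m

/-- functions on `ℂ^(k+1)` with values in the polynomials in `m + 1` variables -/
abbrev Poly (k m : ℕ) : Type := Cn (k + 1) → MvPolynomial (Fin (m + 1)) ℂ

/-! ### Binary forms over the torus -/

/-- `F y` is a binary form of degree `d` whose coefficients are sections of a positive line bundle on `A`: they are entire functions of `y`, and the functions `‖F y x‖ exp (- ∑ ‖W j y‖²)` are `Λ`-periodic; the weight is positive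
definite. -/
structure IsBinaryForm (Λ : Sub k) (F : Poly k 1) (d : ℕ) : Prop where
  homogeneous : ∀ y, (F y).IsHomogeneous d
  holomorphic : ∀ α, Differentiable ℂ fun y => (F y).coeff α
  quasiPeriodic : ∃ (r : ℕ) (W : Fin r → Cn (k + 1) →L[ℂ] ℂ), (∀ y, (∀ j, W j y = 0) → y = 0) ∧
    ∀ l ∈ Λ, ∀ y, ∃ e : ℂ, ‖e‖ = Real.exp (∑ j, ‖W j (y + l)‖ ^ 2 - ∑ j, ‖W j y‖ ^ 2) ∧ F (y + l) = C e * F y

/-- The torus is simple: a complex subspace `W ≠ 0` which is the real span of its lattice points is the whole space. -/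
def IsSimple (Λ : Sub k) : Prop :=
  ∀ W : Submodule ℂ (Cn (k + 1)), W ≠ ⊥ → (∀ v ∈ W, v ∈ Submodule.span ℝ {l : Cn (k + 1) | l ∈ Λ ∧ l ∈ W}) → W = ⊤

/-- `A` is simple, and the divisor `{F = 0}` of `A × ℙ¹` has no multiple component and contains no hypersurface `Γ × ℙ¹`. -/
structure IsReducedOverSimple (Λ : Sub k) (F : Poly k 1) : Prop where
  simple : IsSimple Λ
  /-- over some point `y` the form has no multiple zeros -/
  simpleZeros : ∃ y, ∀ x : Cn 2, x ≠ 0 → eval x (F y) = 0 → ∃ i, eval x (pderiv i (F y)) ≠ 0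
  /-- near a point where the form is `0` the zeros of `F y b`, `b` fixed, are not all such points -/
  codimension : ∀ y, F y = 0 → ∀ b : Cn 2, ∃ᶠ z in 𝓝 y, eval b (F z) = 0 ∧ F z ≠ 0

/-- The binary form of degree `m` with the coefficients `x`. -/
def bin (x : Cn (m + 1)) (p : Cn 2) : ℂ := ∑ i : Fin (m + 1), x i * p 0 ^ (i : ℕ) * p 1 ^ (m - (i : ℕ))

/-- The complement `T`: the pairs of a point `y` of `A` and a binary form `x` of degree `m` (up to constants) which has no common zero with the form `F y`.  It is the `m`-th symmetric power over `A` of the complement of the divisor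
`{F = 0}` of `A × ℙ¹`. -/
def coprimeForms (Λ : Sub k) (m : ℕ) (F : Poly k 1) : Set (Prd Λ m) :=
  {x | ∀ y : Cn (k + 1), pt Λ y = x.1 → ∀ p : Cn 2, p ≠ 0 → eval p (F y) = 0 → bin x.2.rep p ≠ 0}

/-- The binary form `f` has at least `n` different zeros. -/
def HasZeros (n : ℕ) (f : MvPolynomial (Fin 2) ℂ) : Prop := ∃ p : Fin n → PN 1, Function.Injective p ∧ ∀ i, VanishesAt f (p i)

/-- The set of the points of `A` over which there are less than `n` points of the divisor `{F = 0}`. -/
def fewZeros (Λ : Sub k) (n : ℕ) (F : Poly k 1) : Set (Torus Λ) := {t | ∃ y : Cn (k + 1), pt Λ y = t ∧ ¬ HasZeros n (F y)}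

/-! ### Quasi-projective varieties -/

/-- The map `u` from the projective variety given by `P` to the torus is regular: if `θ`, `θ'` are theta functions with the same factor of automorphy, then near each point `x` with `θ (u x) ≠ 0` the function `θ' (u) / θ (u)` is a
quotient of forms of the same degree. -/
def IsRegularTorusMap (P : Ideal (MvPolynomial (Fin (N + 1)) ℂ)) (Λ : Sub k) (u : PN N → Torus Λ) : Prop :=
  ∀ θ θ' : Cn (k + 1) → ℂ, Differentiable ℂ θ → Differentiable ℂ θ' → (∀ l ∈ Λ, ∀ y, ∃ e : ℂ, θ (y + l) = e * θ y ∧ θ' (y + l) = e * θ' y) →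
    ∀ x ∈ projVar P, ∀ y, pt Λ y = u x → θ y ≠ 0 → ∃ (D : ℕ) (a b : MvPolynomial (Fin (N + 1)) ℂ), a.IsHomogeneous D ∧ b.IsHomogeneous D ∧ ¬ VanishesAt b x ∧
      ∀ x' ∈ projVar P, ¬ VanishesAt b x' → ∀ y', pt Λ y' = u x' → θ y' ≠ 0 ∧ θ' y' / θ y' = eval x'.rep a / eval x'.rep b

/-- `U = locVar P G` is a quasi-projective variety, with closure `X` in `ℙ^N`, and `(u, v)` a regular map from `X` to `A × ℙ^m` with finite fibres which maps `U` to `T`; some point of `U` is not over `S`. -/
structure IsFiniteOver (P : Ideal (MvPolynomial (Fin (N + 1)) ℂ)) {s : ℕ} (G : Fin s → MvPolynomial (Fin (N + 1)) ℂ) (Λ : Sub k)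
    (T : Set (Prd Λ m)) (S : Set (Torus Λ)) (u : PN N → Torus Λ) (v : PN N → PN m) : Prop where
  /-- near every point of `X` the map `u` is given by holomorphic functions of the homogeneous coordinates -/
  holomorphic : ∀ (x : Cn (N + 1)) (hx : x ≠ 0), Projectivization.mk ℂ x hx ∈ projVar P → ∃ υ : Cn (N + 1) → Cn (k + 1), AnalyticAt ℂ υ x ∧
    ∀ᶠ x' in 𝓝 x, ∀ hx' : x' ≠ 0, Projectivization.mk ℂ x' hx' ∈ projVar P → u (Projectivization.mk ℂ x' hx') = pt Λ (υ x')
  regularTorus : IsRegularTorusMap P Λ u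
  regular : ∀ x ∈ projVar P, ∃ (D : ℕ) (γ : Fin (m + 1) → MvPolynomial (Fin (N + 1)) ℂ), (∀ i, (γ i).IsHomogeneous D) ∧ vals γ x.rep ≠ 0 ∧
    ∀ x' ∈ projVar P, vals γ x'.rep ≠ 0 → v x' = rmap γ x'
  finite : ∀ x ∈ projVar P, {x' | x' ∈ projVar P ∧ u x' = u x ∧ v x' = v x}.Finite
  maps : ∀ x ∈ locVar P G, (u x, v x) ∈ T
  notOver : ∃ x ∈ locVar P G, u x ∉ S

/-- The four properties of the Green–Griffiths–Lang conjecture for the quasi-projective variety `U = locVar P G`, with the exceptional set `Ξ`; the two properties of holomorphic curves hold if `h` holds. -/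
structure FourProperties (h : Prop) (P : Ideal (MvPolynomial (Fin (N + 1)) ℂ)) [P.IsPrime] {s : ℕ} (G : Fin s → MvPolynomial (Fin (N + 1)) ℂ) (Ξ : Set (PN N)) : Prop where
  closed : ZariskiClosedIn (locVar P G) Ξ
  proper : Ξ ≠ locVar P G
  /-- `U` is of log general type -/
  logGeneralType : ∀ w, 1 ≤ w → (∃ z : Fin w → FunField P, IsTranscendenceBasis ℂ z) → IsLogGeneralType (OnBd P G (k := w))
  /-- every holomorphic map from the punctured disc to `U` which is not a map into `Ξ` extends to a holomorphic map from the disc to `ℙ^N` -/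
  picard : h → ∀ f : ℂ → PN N, HolomorphicInto f puncturedDisc → (∀ z ∈ puncturedDisc, f z ∈ locVar P G) → (∃ z ∈ puncturedDisc, f z ∉ Ξ) →
    ∃ g : ℂ → PN N, HolomorphicInto g (Metric.ball 0 1) ∧ ∀ z ∈ puncturedDisc, g z = f z
  /-- every nonconstant entire curve in `U` lies in `Ξ` -/
  brody : h → ∀ f : ℂ → PN N, HolomorphicInto f Set.univ → (∀ z, f z ∈ locVar P G) → (∃ z w, f z ≠ f w) → ∀ z, f z ∈ Ξ
  /-- every closed subvariety of `U` of positive dimension which is not contained in `Ξ` is of log general type -/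
  strongly : ∀ (Q : Ideal (MvPolynomial (Fin (N + 1)) ℂ)) [Q.IsPrime], Homog Q → P ≤ Q → ¬ locVar Q G ⊆ Ξ →
    ∀ w, 1 ≤ w → (∃ z : Fin w → FunField Q, IsTranscendenceBasis ℂ z) → IsLogGeneralType (OnBd Q G (k := w))

/-! ### Hyperbolicity -/

/-- `t` is holomorphic on the open set `U` as a map to the torus. -/
def HolomorphicIntoTorus (Λ : Sub k) (t : ℂ → Torus Λ) (U : Set ℂ) : Prop :=
  ∀ z₀ ∈ U, ∃ h : ℂ → Cn (k + 1), AnalyticAt ℂ h z₀ ∧ ∀ᶠ z in 𝓝 z₀, t z = pt Λ (h z)

/-- `(t, g)` is a holomorphic map from the open set `U` to the subset `T` of `A × ℙ^m`. -/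
structure IsCurveIn (Λ : Sub k) (T : Set (Prd Λ m)) (t : ℂ → Torus Λ) (g : ℂ → PN m) (U : Set ℂ) : Prop where
  torus : HolomorphicIntoTorus Λ t U
  proj : HolomorphicInto g U
  mem : ∀ z ∈ U, (t z, g z) ∈ T

/-- Hyperbolicity of the subset `T` of `A × ℙ^m` modulo the fibres over the subset `S` of `A`. -/
structure IsHyperbolicModulo (Λ : Sub k) (T : Set (Prd Λ m)) (S : Set (Torus Λ)) : Prop where
  /-- there is a constant `C` such that the component in `A` of every holomorphic map from the unit disc to `T` has derivative at most `C` at `0` -/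
  discs : ∃ C : ℝ, ∀ (h : ℂ → Cn (k + 1)) (g : ℂ → PN m), AnalyticAt ℂ h 0 → IsCurveIn Λ T (fun z => pt Λ (h z)) g (Metric.ball 0 1) → ‖deriv h 0‖ ≤ C
  /-- every entire curve in `T` lies in a fibre, and is constant if this is not a fibre over a point of `S` -/
  entire : ∀ (t : ℂ → Torus Λ) (g : ℂ → PN m), IsCurveIn Λ T t g Set.univ → ∀ z w, t z = t w ∧ (t z ∉ S → g z = g w)
  /-- every holomorphic map from the punctured disc to `T` extends to a holomorphic map from the disc to `A × ℙ^m`, if it does not map into the fibres over `S`; the component in `A` extends in any case -/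
  punctured : ∀ (t : ℂ → Torus Λ) (g : ℂ → PN m), IsCurveIn Λ T t g puncturedDisc →
    (∃ t' : ℂ → Torus Λ, HolomorphicIntoTorus Λ t' (Metric.ball 0 1) ∧ ∀ z ∈ puncturedDisc, t' z = t z) ∧
    ((∃ z ∈ puncturedDisc, t z ∉ S) → ∃ g' : ℂ → PN m, HolomorphicInto g' (Metric.ball 0 1) ∧ ∀ z ∈ puncturedDisc, g' z = g z)

/-- The Kobayashi–Royden metric of the subset `T` of `A × ℙ^m` is bounded below near the nonempty fibres over the complement of `S` (the component in `ℙ^m`; homogeneous coordinates `φ`, Fubini–Study metric). -/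
def KobayashiPositive (Λ : Sub k) (T : Set (Prd Λ m)) (S : Set (Torus Λ)) : Prop :=
  ∀ y : Cn (k + 1), pt Λ y ∉ S → (∃ p, (pt Λ y, p) ∈ T) → ∃ C : ℝ, ∀ᶠ y' : Cn (k + 1) in 𝓝 y, ∀ (t : ℂ → Torus Λ) (g : ℂ → PN m) (φ : ℂ → Cn (m + 1)),
    IsCurveIn Λ T t g (Metric.ball 0 1) → t 0 = pt Λ y' → AnalyticAt ℂ φ 0 → (∀ᶠ z in 𝓝 (0 : ℂ), ∃ h : φ z ≠ 0, g z = Projectivization.mk ℂ (φ z) h) →
    ∀ i j, ‖φ 0 i * deriv φ 0 j - φ 0 j * deriv φ 0 i‖ ≤ C * ∑ i, ‖φ 0 i‖ ^ 2

end Pool.Agent.COP
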