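import Mathlib

/-!
# PX T Few: polynomials with few zeros

`g` is a polynomial of degree `≤ d`, regarded as a binary form of degree `d`.  It has at most `σ + 1` zeros in `ℙ¹` if and only if there are `Q` of degree `≤ σ + 1` and `L` of degree `≤ σ`, with the coefficient `d q` in degree `σ`, `q`
the coefficient of `Q` in degree `σ + 1`, not both `0`, such that `Q g' = L g`.
-/

set_option autoImplicit false

open Polynomial

noncomputable section

namespace Pool.Agent.COP

/-- the index type of the unknowns -/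
abbrev Ix (σ : ℕ) : Type := Fin (σ + 2) ⊕ Fin σ

variable {σ : ℕ}

/-- the polynomial `Q` -/
def qp (c : Ix σ → ℂ) : ℂ[X] := ∑ i : Fin (σ + 2), c (Sum.inl i) • X ^ (i : ℕ)

/-- the polynomial `L` -/
def lp (d : ℕ) (c : Ix σ → ℂ) : ℂ[X] := ((d : ℂ) * c (Sum.inl (Fin.last (σ + 1)))) • X ^ σ + ∑ i : Fin σ, c (Sum.inr i) • X ^ (i : ℕ)

theorem qp_add (a b : Ix σ → ℂ) : qp (a + b) = qp a + qp b := by
  unfold qp
  simp only [Pi.add_apply, add_smul, Finset.sum_add_distrib]

theorem qp_smul (r : ℂ) (a : Ix σ → ℂ) : qp (r • a) = r • qp a := by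
  unfold qp
  rw [Finset.smul_sum]
  exact Finset.sum_congr rfl fun i _ => by rw [Pi.smul_apply, smul_assoc]

theorem lp_add (d : ℕ) (a b : Ix σ → ℂ) : lp d (a + b) = lp d a + lp d b := by
  unfold lp
  simp only [Pi.add_apply, add_smul, mul_add, Finset.sum_add_distrib]
  abel

theorem lp_smul (d : ℕ) (r : ℂ) (a : Ix σ → ℂ) : lp d (r • a) = r • lp d a := by
  unfold lp
  rw [smul_add, Finset.smul_sum]
  congr 1
  · rw [Pi.smul_apply, smul_smul, smul_eq_mul]
    congr 1
    ring
  · exact Finset.sum_congr rfl fun i _ => by rw [Pi.smul_apply, smul_assoc]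

/-- the linear map -/
def psi (d : ℕ) (g : ℂ[X]) : (Ix σ → ℂ) →ₗ[ℂ] ℂ[X] where
  toFun c := qp c * derivative g - lp d c * g
  map_add' a b := by
    rw [qp_add, lp_add]
    ring
  map_smul' r a := by
    rw [qp_smul, lp_smul, smul_mul_assoc, smul_mul_assoc, ← smul_sub, RingHom.id_apply]

theorem psi_apply (d : ℕ) (g : ℂ[X]) (c : Ix σ → ℂ) : psi d g c = qp c * derivative g - lp d c * g := rfl

theorem psi_sum (d : ℕ) {ι : Type} (s : Finset ι) (a : ι → ℂ) (g : ι → ℂ[X]) (c : Ix σ → ℂ) : psi d (∑ i ∈ s, a i • g i) c = ∑ i ∈ s, a i • psi d (g i) c := by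
  simp only [psi_apply]
  rw [derivative_sum, Finset.mul_sum, Finset.mul_sum, ← Finset.sum_sub_distrib]
  refine Finset.sum_congr rfl fun i _ => ?_
  rw [derivative_smul, mul_smul_comm, mul_smul_comm, smul_sub]

theorem coeff_qp (c : Ix σ → ℂ) (n : ℕ) : (qp c).coeff n = if h : n < σ + 2 then c (Sum.inl ⟨n, h⟩) else 0 := by
  unfold qp
  simp only [finsetSum_coeff, coeff_smul, coeff_X_pow, smul_eq_mul, mul_ite, mul_one, mul_zero]
  split_ifs with h
  · rw [Finset.sum_eq_single ⟨n, h⟩]
    · simp
    · intro i _ hi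
      rw [if_neg]
      intro h2
      exact hi (Fin.ext h2.symm)
    · intro h2
      exact absurd (Finset.mem_univ _) h2
  · refine Finset.sum_eq_zero fun i _ => if_neg fun h2 => h ?_
    rw [h2]
    exact i.2

theorem qp_eq_zero {c : Ix σ → ℂ} (h : qp c = 0) (i : Fin (σ + 2)) : c (Sum.inl i) = 0 := by
  have h1 := coeff_qp c i
  rw [h, coeff_zero, dif_pos i.2] at h1
  exact h1.symm

theorem natDegree_qp (c : Ix σ → ℂ) : (qp c).natDegree ≤ σ + 1 := by
  rw [natDegree_le_iff_coeff_eq_zero]
  intro n hn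
  rw [coeff_qp, dif_neg (by omega)]

theorem coeff_lp_lt (d : ℕ) (c : Ix σ → ℂ) (i : Fin σ) : (lp d c).coeff i = c (Sum.inr i) := by
  unfold lp
  simp only [coeff_add, finsetSum_coeff, coeff_smul, coeff_X_pow, smul_eq_mul, mul_ite, mul_one, mul_zero]
  rw [if_neg (by have := i.2; omega), zero_add, Finset.sum_eq_single i]
  · simp
  · intro j _ hj
    rw [if_neg]
    intro h2
    exact hj (Fin.ext h2.symm)
  · intro h2
    exact absurd (Finset.mem_univ _) h2

theorem coeff_lp_eq (d : ℕ) (c : Ix σ → ℂ) : (lp d c).coeff σ = (d : ℂ) * c (Sum.inl (Fin.last (σ + 1))) := by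
  unfold lp
  simp only [coeff_add, finsetSum_coeff, coeff_smul, coeff_X_pow, smul_eq_mul, mul_ite, mul_one, mul_zero]
  rw [if_pos trivial, Finset.sum_eq_zero, add_zero]
  intro i _
  rw [if_neg]
  have := i.2
  omega

theorem natDegree_lp (d : ℕ) (c : Ix σ → ℂ) : (lp d c).natDegree ≤ σ := by
  rw [natDegree_le_iff_coeff_eq_zero]
  intro n hn
  unfold lp
  simp only [coeff_add, finsetSum_coeff, coeff_smul, coeff_X_pow, smul_eq_mul, mul_ite, mul_one, mul_zero]
  rw [if_neg (by omega), zero_add]
  refine Finset.sum_eq_zero fun i _ => if_neg ?_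
  have := i.2
  omega

/-- the coefficient of highest degree of the equation -/
theorem top_coeff {Q L g : ℂ[X]} (h : Q * derivative g = L * g) (hQ : Q.natDegree ≤ σ + 1) (hL : L.natDegree ≤ σ) (hg : g ≠ 0) : L.coeff σ = (g.natDegree : ℂ) * Q.coeff (σ + 1) := by
  have h1 : Q * (X * derivative g) = (X * L) * g := by
    rw [mul_left_comm, h]
    ring
  have hd : (X * derivative g).natDegree ≤ g.natDegree := by
    rw [natDegree_le_iff_coeff_eq_zero]
    intro n hn
    cases n with
    | zero => simp
    | succ n =>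
      rw [coeff_X_mul, coeff_derivative, coeff_eq_zero_of_natDegree_lt hn, zero_mul]
  have hXL : (X * L).natDegree ≤ σ + 1 := natDegree_mul_le.trans (by rw [natDegree_X]; omega)
  have h2 : (Q * (X * derivative g)).coeff (σ + 1 + g.natDegree) = ((X * L) * g).coeff (σ + 1 + g.natDegree) := by rw [h1]
  rw [coeff_mul_add_eq_of_natDegree_le hQ hd, coeff_mul_add_eq_of_natDegree_le hXL le_rfl, coeff_X_mul] at h2
  have h3 : (X * derivative g).coeff g.natDegree = (g.natDegree : ℂ) * g.coeff g.natDegree := by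
    cases hn : g.natDegree with
    | zero => simp
    | succ n =>
      rw [coeff_X_mul, coeff_derivative]
      push_cast
      ring
  rw [h3] at h2
  have h4 : g.coeff g.natDegree ≠ 0 := leadingCoeff_ne_zero.2 hg
  refine mul_right_cancel₀ h4 ?_
  rw [← h2]
  ring

/-- a root of `g` is a root of `Q` -/
theorem root_of_eq {Q L g : ℂ[X]} (h : Q * derivative g = L * g) (hg : g ≠ 0) {α : ℂ} (hα : g.IsRoot α) : Q.IsRoot α := by
  by_contra hQ
  have hg' : derivative g ≠ 0 := by
    intro h0
    have h1 := derivative_eq_zero.1 h0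
    rw [eq_C_of_natDegree_eq_zero h1] at hα hg
    rw [IsRoot, eval_C] at hα
    exact hg (by rw [hα, C_0])
  set μ := g.rootMultiplicity α with hμ
  have hμ1 : 0 < μ := (rootMultiplicity_pos hg).2 hα
  have h1 : (X - C α) ^ μ ∣ Q * derivative g := by
    rw [h]
    exact Dvd.dvd.mul_left (pow_rootMultiplicity_dvd g α) L
  have hcop : IsCoprime ((X - C α) ^ μ) Q := by
    refine IsCoprime.pow_left ?_
    refine ((irreducible_X_sub_C α).coprime_iff_not_dvd).2 fun h2 => hQ (dvd_iff_isRoot.1 h2)
  have h2 : (X - C α) ^ μ ∣ derivative g := hcop.dvd_of_dvd_mul_left h1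
  have h3 := (le_rootMultiplicity_iff hg').2 h2
  rw [derivative_rootMultiplicity_of_root hα, ← hμ] at h3
  omega

/-- the number of zeros of the form -/
def nz (d : ℕ) (g : ℂ[X]) : ℕ := g.roots.toFinset.card + if g.natDegree < d then 1 else 0

/-- Many zeros. -/
theorem psi_inj {d : ℕ} {g : ℂ[X]} (hg : g ≠ 0) (h : σ + 2 ≤ nz d g) : Function.Injective (psi (σ := σ) d g) := by
  rw [injective_iff_map_eq_zero]
  intro c hc
  rw [psi_apply, sub_eq_zero] at hc
  have hroot : ∀ α ∈ g.roots.toFinset, (qp c).eval α = 0 := fun α hα => root_of_eq hc hg ((mem_roots hg).1 (Multiset.mem_toFinset.1 hα))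
  have htop := top_coeff hc (natDegree_qp c) (natDegree_lp d c) hg
  have hlast : (qp c).coeff (σ + 1) = c (Sum.inl (Fin.last (σ + 1))) := by
    rw [coeff_qp, dif_pos (by omega)]
    rfl
  have hQ : qp c = 0 := by
    unfold nz at h
    split_ifs at h with h1
    · have h2 : c (Sum.inl (Fin.last (σ + 1))) = 0 := by
        rw [coeff_lp_eq, hlast] at htop
        have h3 : ((d : ℂ) - g.natDegree) * c (Sum.inl (Fin.last (σ + 1))) = 0 := by
          rw [sub_mul, htop, sub_self]
        rcases mul_eq_zero.1 h3 with h4 | h4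
        · rw [sub_eq_zero, Nat.cast_inj] at h4
          omega
        · exact h4
      have h4 : (qp c).natDegree ≤ σ := by
        rw [natDegree_le_iff_coeff_eq_zero]
        intro n hn
        rcases Nat.lt_or_ge n (σ + 2) with h5 | h5
        · have h6 : n = σ + 1 := by omega
          rw [h6, hlast, h2]
        · rw [coeff_qp, dif_neg (by omega)]
      exact eq_zero_of_natDegree_lt_card_of_eval_eq_zero' (qp c) g.roots.toFinset hroot (by omega)
    · exact eq_zero_of_natDegree_lt_card_of_eval_eq_zero' (qp c) g.roots.toFinset hroot (by have := natDegree_qp c; omega)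
  have hL : lp d c = 0 := by
    rw [hQ, zero_mul] at hc
    exact (mul_eq_zero.1 hc.symm).resolve_right hg
  funext i
  rcases i with i | i
  · exact qp_eq_zero hQ i
  · have h1 := coeff_lp_lt d c i
    rw [hL, coeff_zero] at h1
    exact h1.symm

/-- Few zeros. -/
theorem psi_ker {d : ℕ} {g : ℂ[X]} (hg : g ≠ 0) (hd : g.natDegree ≤ d) (h : nz d g ≤ σ + 1) : ∃ c : Ix σ → ℂ, c ≠ 0 ∧ psi d g c = 0 := by
  classical
  set R : ℂ[X] := ∏ α ∈ g.roots.toFinset, (X - C α) with hR
  have hRm : R.Monic := monic_prod_of_monic _ _ fun α _ => monic_X_sub_C α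
  have hRdeg : R.natDegree = g.roots.toFinset.card := by
    rw [hR, natDegree_prod_of_monic _ _ fun α _ => monic_X_sub_C α]
    simp
  have hRroots : ∀ α ∈ g.roots.toFinset, (X - C α) ∣ R := fun α hα => Finset.dvd_prod_of_mem _ hα
  have hdvd : g ∣ R * derivative g := by
    by_cases hg' : derivative g = 0
    · rw [hg', mul_zero]
      exact dvd_zero g
    have h1 : g = C g.leadingCoeff * (g.roots.map fun a => X - C a).prod := (IsAlgClosed.splits g).eq_prod_roots
    have h2 : (g.roots.map fun a => X - C a).prod ∣ R * derivative g := by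
      rw [Multiset.prod_X_sub_C_dvd_iff_le_roots (mul_ne_zero hRm.ne_zero hg'), Multiset.le_iff_count]
      intro α
      rw [count_roots, count_roots]
      by_cases hα : α ∈ g.roots
      · have hα' : g.IsRoot α := (mem_roots hg).1 hα
        have h3 : (X - C α) * (X - C α) ^ (g.rootMultiplicity α - 1) ∣ R * derivative g := by
          refine mul_dvd_mul (hRroots α (Multiset.mem_toFinset.2 hα)) ?_
          rw [← derivative_rootMultiplicity_of_root hα']
          exact pow_rootMultiplicity_dvd _ _
        rw [← pow_succ'] at h3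
        have h4 := (le_rootMultiplicity_iff (mul_ne_zero hRm.ne_zero hg')).2 h3
        have h5 : 0 < g.rootMultiplicity α := (rootMultiplicity_pos hg).2 hα'
        omega
      · have h3 : g.rootMultiplicity α = 0 := by
          by_contra h4
          exact hα ((mem_roots hg).2 ((rootMultiplicity_pos hg).1 (Nat.pos_of_ne_zero h4)))
        rw [h3]
        exact Nat.zero_le _
    rw [h1]
    refine (IsUnit.mul_left_dvd ?_).2 ?_
    · exact isUnit_C.2 (leadingCoeff_ne_zero.2 hg).isUnit
    · rw [← h1]
      exact h2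
  obtain ⟨L, hL⟩ := hdvd
  have hL' : R * derivative g = L * g := by rw [hL, mul_comm]
  have hRle : R.natDegree ≤ σ + 1 := by
    unfold nz at h
    rw [hRdeg]
    omega
  have hLle : L.natDegree ≤ σ := by
    by_cases h0 : L = 0
    · rw [h0, natDegree_zero]
      exact Nat.zero_le _
    · have hg' : derivative g ≠ 0 := by
        intro h1
        rw [h1, mul_zero] at hL'
        exact (mul_ne_zero h0 hg) hL'.symm
      have h1 : R.natDegree + (derivative g).natDegree = L.natDegree + g.natDegree := by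
        rw [← natDegree_mul hRm.ne_zero hg', hL', natDegree_mul h0 hg]
      have h2 : (derivative g).natDegree < g.natDegree := natDegree_derivative_lt fun h3 => hg' (by rw [eq_C_of_natDegree_eq_zero h3, derivative_C])
      omega
  have htop := top_coeff hL' hRle hLle hg
  have hcoef : L.coeff σ = (d : ℂ) * R.coeff (σ + 1) := by
    rw [htop]
    rcases hd.lt_or_eq with h1 | h1
    · have h2 : R.coeff (σ + 1) = 0 := by
        refine coeff_eq_zero_of_natDegree_lt ?_
        unfold nz at h
        rw [if_pos h1] at h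
        rw [hRdeg]
        omega
      rw [h2, mul_zero, mul_zero]
    · rw [h1]
  set c : Ix σ → ℂ := Sum.elim (fun i => R.coeff i) fun i => L.coeff i with hc
  have hq : qp c = R := by
    ext n
    rw [coeff_qp]
    split_ifs with h1
    · rfl
    · exact (coeff_eq_zero_of_natDegree_lt (by omega)).symm
  have hl : lp d c = L := by
    ext n
    rcases lt_trichotomy n σ with h1 | h1 | h1
    · exact coeff_lp_lt d c ⟨n, h1⟩
    · subst h1
      rw [coeff_lp_eq, hcoef]
      rfl
    · rw [coeff_eq_zero_of_natDegree_lt ((natDegree_lp d c).trans_lt h1), coeff_eq_zero_of_natDegree_lt (hLle.trans_lt h1)]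
  refine ⟨c, fun h0 => ?_, ?_⟩
  · have h1 : qp c = 0 := by
      rw [h0]
      unfold qp
      simp
    rw [hq] at h1
    exact hRm.ne_zero h1
  · rw [psi_apply, hq, hl, hL', sub_self]

end Pool.Agent.COP
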