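import Pool.Agent.PX.T.Frm
import Pool.Agent.PX.T.Few
import Pool.Agent.PX.F.Poly

/-!
# PX T FewT: the set of the points over which the form has few zeros is contained in the zeros of theta functions
-/

set_option autoImplicit false

open Topology Filter Metric MvPolynomial
open Pool.Agent.H17 (PN VanishesAt vanishesAt_mk_iff)
open Pool.Agent.PX (tht ex eval_ex mem_ex vanishes_iff mk_ne)

noncomputable section

namespace Pool.Agent.COP

variable {k d σ n : ℕ}

/-- the polynomial given by a binary form -/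
def gpoly (d : ℕ) (f : MvPolynomial (Fin 2) ℂ) : Polynomial ℂ := ∑ i : Fin (d + 1), f.coeff (ex d i) • Polynomial.X ^ (i : ℕ)

theorem coeff_gpoly (f : MvPolynomial (Fin 2) ℂ) (j : ℕ) : (gpoly d f).coeff j = if j ≤ d then f.coeff (ex d j) else 0 := by
  unfold gpoly
  simp only [Polynomial.finsetSum_coeff, Polynomial.coeff_smul, Polynomial.coeff_X_pow, smul_eq_mul, mul_ite, mul_one, mul_zero]
  split_ifs with h
  · rw [Finset.sum_eq_single ⟨j, by omega⟩]
    · simp
    · intro i _ hi
      rw [if_neg]
      intro h2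
      exact hi (Fin.ext h2.symm)
    · intro h2
      exact absurd (Finset.mem_univ _) h2
  · refine Finset.sum_eq_zero fun i _ => if_neg fun h2 => h ?_
    have := i.2
    omega

theorem natDegree_gpoly (f : MvPolynomial (Fin 2) ℂ) : (gpoly d f).natDegree ≤ d := by
  rw [Polynomial.natDegree_le_iff_coeff_eq_zero]
  intro j hj
  rw [coeff_gpoly, if_neg (by omega)]

theorem gpoly_ne {f : MvPolynomial (Fin 2) ℂ} (hf : f.IsHomogeneous d) (h : f ≠ 0) : gpoly d f ≠ 0 := by
  intro h0
  obtain ⟨a, ha⟩ := ne_zero_iff.1 h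
  obtain ⟨i, hi⟩ := mem_ex hf ha
  have h1 := coeff_gpoly (d := d) f i
  rw [h0, Polynomial.coeff_zero, if_pos (by have := i.2; omega), hi] at h1
  exact ha h1.symm

theorem eval_gpoly {f : MvPolynomial (Fin 2) ℂ} (hf : f.IsHomogeneous d) (α : ℂ) : (gpoly d f).eval α = eval ![α, 1] f := by
  rw [eval_ex hf]
  unfold gpoly
  rw [Polynomial.eval_finsetSum]
  refine Finset.sum_congr rfl fun i _ => ?_
  simp

theorem eval_inf {f : MvPolynomial (Fin 2) ℂ} (hf : f.IsHomogeneous d) : eval ![1, 0] f = f.coeff (ex d d) := by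
  rw [eval_ex hf, Finset.sum_eq_single (Fin.last d)]
  · simp
  · intro i _ hi
    have h1 : d - (i : ℕ) ≠ 0 := by
      have h2 := i.2
      have h3 : (i : ℕ) ≠ d := fun h => hi (Fin.ext h)
      omega
    simp [h1]
  · intro h2
    exact absurd (Finset.mem_univ _) h2

/-- the points of `ℙ^1` -/
def pO : Option ℂ → PN 1
  | some α => Projectivization.mk ℂ ![α, 1] fun h => one_ne_zero (congrFun h 1)
  | none => Projectivization.mk ℂ ![1, 0] fun h => one_ne_zero (congrFun h 0)

theorem pO_inj : Function.Injective pO := by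
  intro a b h
  by_contra hab
  revert h
  rcases a with _ | α <;> rcases b with _ | β
  · exact absurd rfl hab
  · exact (mk_ne _ _).2 (by simp)
  · exact (mk_ne _ _).2 (by simp)
  · refine (mk_ne _ _).2 ?_
    simp only [Matrix.cons_val_zero, Matrix.cons_val_one, mul_one, one_mul]
    exact fun h => hab (by rw [h])

theorem pO_surj (p : PN 1) : ∃ o, pO o = p := by
  have hp : Projectivization.mk ℂ p.rep p.rep_nonzero = p := p.mk_rep
  by_cases h : p.rep 1 = 0
  · refine ⟨none, Eq.trans ?_ hp⟩
    by_contra hne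
    refine (mk_ne _ _).1 hne ?_
    simp [h]
  · refine ⟨some (p.rep 0 / p.rep 1), Eq.trans ?_ hp⟩
    by_contra hne
    refine (mk_ne _ _).1 hne ?_
    simp only [Matrix.cons_val_zero, Matrix.cons_val_one, one_mul]
    exact div_mul_cancel₀ _ h

/-- the zeros -/
def zO (d : ℕ) (f : MvPolynomial (Fin 2) ℂ) : Finset (Option ℂ) :=
  open Classical in (gpoly d f).roots.toFinset.map Function.Embedding.some ∪ if (gpoly d f).natDegree < d then {none} else ∅

theorem card_zO (f : MvPolynomial (Fin 2) ℂ) : (zO d f).card = nz d (gpoly d f) := by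
  classical
  unfold zO nz
  rw [Finset.card_union_of_disjoint, Finset.card_map]
  · congr 1
    split_ifs <;> rfl
  · rw [Finset.disjoint_left]
    intro o ho
    obtain ⟨α, -, rfl⟩ := Finset.mem_map.1 ho
    split_ifs <;> simp

theorem mem_zO {f : MvPolynomial (Fin 2) ℂ} (hf : f.IsHomogeneous d) (h : f ≠ 0) (o : Option ℂ) : VanishesAt f (pO o) ↔ o ∈ zO d f := by
  classical
  have hg := gpoly_ne hf h
  unfold zO
  rw [Finset.mem_union]
  rcases o with _ | α
  · have h1 : VanishesAt f (pO none) ↔ f.coeff (ex d d) = 0 := by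
      rw [← eval_inf hf]
      exact vanishes_iff hf _
    have h2 : f.coeff (ex d d) = 0 ↔ (gpoly d f).natDegree < d := by
      have h3 := coeff_gpoly (d := d) f d
      rw [if_pos le_rfl] at h3
      rw [← h3]
      constructor
      · intro h4
        refine lt_of_le_of_ne (natDegree_gpoly f) fun h5 => ?_
        have h6 : (gpoly d f).coeff (gpoly d f).natDegree = (gpoly d f).coeff d := congrArg (gpoly d f).coeff h5
        exact (Polynomial.leadingCoeff_ne_zero.2 hg) (h6.trans h4)
      · exact Polynomial.coeff_eq_zero_of_natDegree_lt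
    rw [h1, h2]
    constructor
    · intro h4
      right
      rw [if_pos h4]
      exact Finset.mem_singleton_self _
    · rintro (h4 | h4)
      · obtain ⟨α, -, h5⟩ := Finset.mem_map.1 h4
        exact absurd h5 (by simp)
      · split_ifs at h4 with h5
        · exact h5
        · exact absurd h4 (by simp)
  · have h1 : VanishesAt f (pO (some α)) ↔ (gpoly d f).eval α = 0 := by
      rw [eval_gpoly hf]
      exact vanishes_iff hf _
    rw [h1]
    constructor
    · intro h4
      left
      refine Finset.mem_map.2 ⟨α, Multiset.mem_toFinset.2 ((Polynomial.mem_roots hg).2 h4), rfl⟩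
    · rintro (h4 | h4)
      · obtain ⟨β, h5, h6⟩ := Finset.mem_map.1 h4
        obtain rfl : β = α := Option.some.inj h6
        exact (Polynomial.mem_roots hg).1 (Multiset.mem_toFinset.1 h5)
      · split_ifs at h4
        · exact absurd h4 (by simp)
        · exact absurd h4 (by simp)

theorem hasZeros_iff {f : MvPolynomial (Fin 2) ℂ} (hf : f.IsHomogeneous d) (h : f ≠ 0) : HasZeros n f ↔ n ≤ nz d (gpoly d f) := by
  rw [← card_zO]
  constructor
  · rintro ⟨p, hp, hv⟩
    choose o ho using fun i => pO_surj (p i)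
    have h1 : Function.Injective o := fun i j hij => hp (by rw [← ho i, ← ho j, hij])
    have h2 : (Finset.univ : Finset (Fin n)).card ≤ (zO d f).card := by
      refine Finset.card_le_card_of_injOn o (fun i _ => ?_) h1.injOn
      exact (mem_zO hf h _).1 (by rw [ho]; exact hv i)
    simpa using h2
  · intro hn
    refine ⟨fun i => pO ((zO d f).equivFin.symm (Fin.castLE hn i)), fun i j hij => ?_, fun i => (mem_zO hf h _).2 (Subtype.prop _)⟩
    have h1 := pO_inj hij
    have h2 := (zO d f).equivFin.symm.injective (Subtype.ext h1)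
    exact Fin.castLE_injective hn h2

theorem hasZeros_zero : HasZeros n 0 := by
  refine ⟨fun i => pO (some (i : ℕ)), fun i j hij => ?_, fun i => ?_⟩
  · have h1 := Option.some.inj (pO_inj hij)
    exact Fin.ext (Nat.cast_injective h1)
  · exact map_zero _

/-- A theta function which is `0` at the points over which the form has few zeros. -/
theorem exists_theta {Λ : Sub k} {F : Poly k 1} (hF : IsHolomorphicForm F d) (hq : ∀ l ∈ Λ, ∀ y, ∃ e : ℂ, F (y + l) = C e * F y) {y₁ : Cn (k + 1)} (h0 : F y₁ ≠ 0) (h1 : HasZeros (σ + 2) (F y₁)) :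
    ∃ θ : Cn (k + 1) → ℂ, Differentiable ℂ θ ∧ (∀ l ∈ Λ, ∀ y, ∃ e : ℂ, θ (y + l) = e * θ y) ∧ θ y₁ ≠ 0 ∧ ∀ y, ¬ HasZeros (σ + 2) (F y) → θ y = 0 := by
  classical
  have hinj := psi_inj (gpoly_ne (hF.homogeneous y₁) h0) ((hasZeros_iff (hF.homogeneous y₁) h0).1 h1)
  obtain ⟨B, hB⟩ := (psi (σ := σ) d (gpoly d (F y₁))).exists_leftInverse_of_injective (LinearMap.ker_eq_bot.2 hinj)
  set A : Cn (k + 1) → Matrix (Ix σ) (Ix σ) ℂ := fun y => Matrix.of fun i j => B (psi d (gpoly d (F y)) (Pi.single j 1)) i with hA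
  have hAv : ∀ y c, (A y).mulVec c = B (psi d (gpoly d (F y)) c) := by
    intro y c
    have h2 : c = ∑ j, c j • (Pi.single j 1 : Ix σ → ℂ) := by
      conv_lhs => rw [← Finset.univ_sum_single c]
      refine Finset.sum_congr rfl fun j _ => ?_
      rw [← Pi.single_smul, smul_eq_mul, mul_one]
    conv_rhs => rw [h2, map_sum, map_sum]
    funext i
    rw [Matrix.mulVec, dotProduct, Finset.sum_apply]
    refine Finset.sum_congr rfl fun j _ => ?_
    rw [map_smul, map_smul, Pi.smul_apply, smul_eq_mul, mul_comm]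
    rfl
  have hAe : ∀ y i j, A y i j = ∑ l : Fin (d + 1), (F y).coeff (ex d l) * B (psi d (Polynomial.X ^ (l : ℕ)) (Pi.single j 1)) i := by
    intro y i j
    change B (psi d (∑ i : Fin (d + 1), (F y).coeff (ex d i) • Polynomial.X ^ (i : ℕ)) (Pi.single j 1)) i = _
    rw [psi_sum, map_sum, Finset.sum_apply]
    refine Finset.sum_congr rfl fun l _ => ?_
    rw [map_smul, Pi.smul_apply, smul_eq_mul]
  refine ⟨fun y => (A y).det, ?_, ?_, ?_, ?_⟩
  · have h2 : ∀ i j, Differentiable ℂ fun y => A y i j := by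
      intro i j
      have h3 : (fun y => A y i j) = fun y => ∑ l : Fin (d + 1), (F y).coeff (ex d l) * B (psi d (Polynomial.X ^ (l : ℕ)) (Pi.single j 1)) i := funext fun y => hAe y i j
      rw [h3]
      exact Differentiable.fun_sum fun l _ => (hF.holomorphic _).mul_const _
    have h3 : (fun y => (A y).det) = fun y => ∑ τ : Equiv.Perm (Ix σ), ((Equiv.Perm.sign τ : ℤ) : ℂ) * ∏ i, A y (τ i) i := funext fun y => Matrix.det_apply' _
    rw [h3]
    refine Differentiable.fun_sum fun τ _ => Differentiable.const_mul ?_ _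
    exact fun y => (HasFDerivAt.finsetProd fun i _ => (h2 _ _ y).hasFDerivAt).differentiableAt
  · intro l hl y
    obtain ⟨e, he⟩ := hq l hl y
    refine ⟨e ^ Fintype.card (Ix σ), ?_⟩
    have h2 : A (y + l) = e • A y := by
      ext i j
      rw [Matrix.smul_apply, smul_eq_mul, hAe, hAe, Finset.mul_sum]
      refine Finset.sum_congr rfl fun l' _ => ?_
      rw [he, coeff_C_mul, mul_assoc]
    change (A (y + l)).det = _
    rw [h2, Matrix.det_smul]
  · have h2 : A y₁ = 1 := by
      ext i j
      have h3 := congrArg (fun L : (Ix σ → ℂ) →ₗ[ℂ] (Ix σ → ℂ) => L (Pi.single j 1) i) hB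
      simp only [LinearMap.coe_comp, Function.comp_apply, LinearMap.id_coe, id_eq] at h3
      rw [Matrix.one_apply]
      refine Eq.trans h3 ?_
      rw [Pi.single_apply]
    change (A y₁).det ≠ 0
    rw [h2, Matrix.det_one]
    exact one_ne_zero
  · intro y hy
    have hy0 : F y ≠ 0 := by
      intro h2
      rw [h2] at hy
      exact hy hasZeros_zero
    rw [hasZeros_iff (hF.homogeneous y) hy0] at hy
    obtain ⟨c, hc, hc0⟩ := psi_ker (σ := σ) (gpoly_ne (hF.homogeneous y) hy0) (natDegree_gpoly _) (by omega)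
    refine Matrix.exists_mulVec_eq_zero_iff.1 ⟨c, hc, ?_⟩
    rw [hAv, hc0, map_zero]

end Pool.Agent.COP
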