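import Pool.Agent.PX.T.Defs

/-!
# PX T Frm: sections of line bundles
-/

set_option autoImplicit false

open Topology Filter MvPolynomial

noncomputable section

namespace Pool.Agent.COP

variable {k m d : ℕ}

/-- `F y` is a form of degree `d` in `x ∈ ℂ^(m+1)` whose coefficients are entire functions of `y`. -/
structure IsHolomorphicForm (F : Poly k m) (d : ℕ) : Prop where
  homogeneous : ∀ y, (F y).IsHomogeneous d
  holomorphic : ∀ α, Differentiable ℂ fun y => (F y).coeff α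

/-- `F` is a section of `L ⊠ O(d)`, `d > 0`, for a line bundle `L` on `A`. -/
structure IsSection (Λ : Sub k) (F : Poly k m) {r : ℕ} (W : Fin r → Cn (k + 1) →L[ℂ] ℂ) : Prop where
  form : ∃ d, 0 < d ∧ IsHolomorphicForm F d
  quasiPeriodic : ∀ l ∈ Λ, ∀ y, ∃ e : ℂ, ‖e‖ = Real.exp (∑ j, ‖W j (y + l)‖ ^ 2 - ∑ j, ‖W j y‖ ^ 2) ∧ F (y + l) = C e * F y

/-- The line bundle is positive. -/
def IsAmple (Λ : Sub k) (F : Poly k m) : Prop :=
  ∃ (r : ℕ) (W : Fin r → Cn (k + 1) →L[ℂ] ℂ), (∀ y, (∀ j, W j y = 0) → y = 0) ∧ IsSection Λ F W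

theorem IsBinaryForm.form {Λ : Sub k} {F : Poly k 1} (h : IsBinaryForm Λ F d) : IsHolomorphicForm F d := ⟨h.homogeneous, h.holomorphic⟩

theorem IsBinaryForm.ample {Λ : Sub k} {F : Poly k 1} (h : IsBinaryForm Λ F d) (hd : 0 < d) : IsAmple Λ F := by
  obtain ⟨r, W, hW, hq⟩ := h.quasiPeriodic
  exact ⟨r, W, hW, ⟨d, hd, h.form⟩, hq⟩

end Pool.Agent.COP
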