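import Pool.Agent.PX.T.Spec

/-!
# PX T Geo: the geometric hypotheses for the quasi-projective varieties over `T`
-/

set_option autoImplicit false

open Topology Filter Metric MvPolynomial
open Pool.Agent.H17 (PN VanishesAt HolomorphicInto puncturedDisc ZariskiClosedIn vanishesAt_mk_iff)
open Pool.Agent.H17EF (projVar)
open Pool.Agent.H17GT (coordFun functionField)
open Pool.Agent.H17LG.Variety (FunField IsLogGeneralType ratio)
open Pool.Agent.H62.FC (Homog)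
open Pool.Agent.H62.SA (locVar OnBd)
open Pool.Agent.H7.Bir (vals rmap vals_smul rmap_mk)
open Pool.Agent.PX (tht thetaForm_of eval_form)
open Pool.Agent.LG (Cone GP RegAt BdG IsType Lft RegL)
open Pool.Agent.COT (exists_rep_smul mem_of_cone cone_of_mem loc_of_cone Lf)
open Pool.Agent.PXF (form)

noncomputable section

namespace Pool.Agent.COP

variable {k N s d m : ℕ} {Λ : Sub k} {F : Poly k 1} {Q : Ideal (MvPolynomial (Fin (N + 1)) ℂ)} {G : Fin s → MvPolynomial (Fin (N + 1)) ℂ} {u : PN N → Torus Λ} {v : PN N → PN m}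

/-- `q` are homogeneous coordinates of the image of `a` in `ℙ^m` -/
def Vf (v : PN N → PN m) (a : Fin (N + 1) → ℂ) (q : Cn (m + 1)) : Prop := ∃ (h : a ≠ 0) (hq : q ≠ 0), v (Projectivization.mk ℂ a h) = Projectivization.mk ℂ q hq

theorem vmap_of
    (hv : ∀ x ∈ projVar Q, ∃ (D : ℕ) (γ : Fin (m + 1) → MvPolynomial (Fin (N + 1)) ℂ), (∀ i, (γ i).IsHomogeneous D) ∧ vals γ x.rep ≠ 0 ∧
      ∀ x' ∈ projVar Q, vals γ x'.rep ≠ 0 → v x' = rmap γ x') (a : Fin (N + 1) → ℂ) (ha : Cone Q a) :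
    ∃ (D : ℕ) (γ : Fin (m + 1) → MvPolynomial (Fin (N + 1)) ℂ), (∀ i, (γ i).IsHomogeneous D) ∧ (∃ i, eval a (γ i) ≠ 0) ∧
      ∀ a', Cone Q a' → (∃ i, eval a' (γ i) ≠ 0) → ∀ q : Cn (m + 1), Vf v a' q ↔ ∃ c : ℂ, c ≠ 0 ∧ q = fun i => c * eval a' (γ i) := by
  obtain ⟨D, γ, hγ, h1, h2⟩ := hv _ (mem_of_cone ha)
  have key : ∀ {a : Fin (N + 1) → ℂ} (ha : a ≠ 0), vals γ (Projectivization.mk ℂ a ha).rep ≠ 0 ↔ ∃ i, eval a (γ i) ≠ 0 := by
    intro a ha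
    obtain ⟨c, hc, hrep⟩ := exists_rep_smul ha
    rw [hrep, vals_smul hγ, Ne, smul_eq_zero_iff_right (pow_ne_zero _ hc), ← Ne, Function.ne_iff]
    exact Iff.rfl
  refine ⟨D, γ, hγ, (key ha.1).1 h1, fun a' ha' hne q => ?_⟩
  have h3 : vals γ a' ≠ 0 := Function.ne_iff.2 hne
  have h4 : v (Projectivization.mk ℂ a' ha'.1) = Projectivization.mk ℂ (vals γ a') h3 := by
    rw [h2 _ (mem_of_cone ha') ((key ha'.1).2 hne), rmap_mk hγ ha'.1 h3]
  constructor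
  · rintro ⟨_, hq, h5⟩
    rw [h4, Projectivization.mk_eq_mk_iff'] at h5
    obtain ⟨c, hc⟩ := h5
    have hc0 : c ≠ 0 := by
      rintro rfl
      rw [zero_smul] at hc
      exact h3 hc.symm
    refine ⟨c⁻¹, inv_ne_zero hc0, ?_⟩
    funext i
    have h6 := congrFun hc i
    simp only [Pi.smul_apply, smul_eq_mul] at h6
    change q i = c⁻¹ * vals γ a' i
    rw [← h6, inv_mul_cancel_left₀ hc0]
  · rintro ⟨c, hc, rfl⟩
    have hq : (fun i => c * eval a' (γ i)) ≠ 0 := by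
      intro h0
      apply h3
      funext i
      exact (mul_eq_zero.1 (congrFun h0 i)).resolve_left hc
    refine ⟨ha'.1, hq, ?_⟩
    rw [h4, Projectivization.mk_eq_mk_iff']
    refine ⟨c⁻¹, ?_⟩
    funext i
    simp only [Pi.smul_apply, smul_eq_mul]
    rw [inv_mul_cancel_left₀ hc]
    rfl

theorem fin_of (hfin : ∀ x ∈ projVar Q, {x' | x' ∈ projVar Q ∧ u x' = u x ∧ v x' = v x}.Finite) (γ : ℂ → Fin (N + 1) → ℂ) (y : Cn (k + 1)) (q : Cn (m + 1)) (hγ : AnalyticAt ℂ γ 0)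
    (hc : ∀ᶠ t in 𝓝 (0 : ℂ), Cone Q (γ t)) (hL : ∀ᶠ t in 𝓝 (0 : ℂ), Lf (Λ := Λ) u (γ t) y) (hV : ∀ᶠ t in 𝓝 (0 : ℂ), Vf v (γ t) q) : ∀ᶠ t in 𝓝 (0 : ℂ), ∃ c : ℂ, γ t = c • γ 0 := by
  have h0 : Cone Q (γ 0) := hc.self_of_nhds
  set x₀ := Projectivization.mk ℂ (γ 0) h0.1 with hx₀
  have hfin' := hfin x₀ (mem_of_cone h0)
  obtain ⟨_, hL0⟩ := hL.self_of_nhds
  obtain ⟨_, hq, hV0⟩ := hV.self_of_nhds
  -- the curve avoids the other points of the fibre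
  have h1 : ∀ p ∈ {x' | x' ∈ projVar Q ∧ u x' = u x₀ ∧ v x' = v x₀} \ {x₀}, ∀ᶠ t in 𝓝 (0 : ℂ), γ t ∉ Submodule.span ℂ {p.rep} := by
    intro p hp
    have hcl : IsClosed (Submodule.span ℂ {p.rep} : Set (Fin (N + 1) → ℂ)) := Submodule.closed_of_finiteDimensional _
    have hn : γ 0 ∉ (Submodule.span ℂ {p.rep} : Set (Fin (N + 1) → ℂ)) := by
      intro h2
      obtain ⟨c, hc'⟩ := Submodule.mem_span_singleton.1 h2
      apply hp.2
      rw [Set.mem_singleton_iff, ← p.mk_rep, hx₀, eq_comm, Projectivization.mk_eq_mk_iff']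
      exact ⟨c, hc'⟩
    exact hγ.continuousAt.eventually (hcl.isOpen_compl.mem_nhds hn)
  have h2 := (Filter.eventually_all_finite (hfin'.subset Set.sdiff_subset)).2 h1
  filter_upwards [h2, hc, hL, hV] with t ht hct hLt hVt
  obtain ⟨ht0, hLt⟩ := hLt
  obtain ⟨_, _, hVt⟩ := hVt
  by_contra hcon
  set p := Projectivization.mk ℂ (γ t) ht0 with hp
  have hpx : p ≠ x₀ := by
    intro h3
    rw [hp, hx₀, Projectivization.mk_eq_mk_iff'] at h3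
    obtain ⟨c, hc'⟩ := h3
    exact hcon ⟨c, hc'.symm⟩
  refine ht p ⟨⟨mem_of_cone hct, hLt.trans hL0.symm, hVt.trans hV0.symm⟩, hpx⟩ ?_
  obtain ⟨c, hc0, hrep⟩ := exists_rep_smul ht0
  rw [← hp] at hrep
  rw [hrep]
  refine Submodule.mem_span_singleton.2 ⟨c⁻¹, ?_⟩
  rw [smul_smul, inv_mul_cancel₀ hc0, one_smul]

theorem reg_of (hF : IsHolomorphicForm F d) (hA : IsAmple Λ F) (hne : ∃ y, F y ≠ 0) (hu : IsRegularTorusMap Q Λ u) : RegL Q Λ (tht d F) (Lf u) := COT.reg_of hF.to (ample_to hA) hne hu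

theorem off_of (hF : ∀ y, (F y).IsHomogeneous d) (hG : ∀ i, ∃ n, (G i).IsHomogeneous n) (h : ∀ x ∈ locVar Q G, (u x, v x) ∈ coprimeForms Λ m F) (a : Fin (N + 1) → ℂ) (y : Cn (k + 1)) (q : Cn (m + 1))
    (ha : Cone Q a) (hm : ∃ i, eval a (G i) ≠ 0) (hL : Lf u a y) (hV : Vf v a q) (p : Cn 2) (hp : p ≠ 0) (h0 : form (tht d F) y p = 0) : bin q p ≠ 0 := by
  obtain ⟨_, hy⟩ := hL
  obtain ⟨_, hq, hv⟩ := hV
  have h1 := h _ (loc_of_cone hG ha hm) y hy.symm p hp ((eval_form (hF y) p).symm.trans h0)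
  intro h2
  apply h1
  change bin (v (Projectivization.mk ℂ a ha.1)).rep p = 0
  rw [hv]
  obtain ⟨c, hc⟩ := Projectivization.exists_smul_eq_mk_rep ℂ q hq
  rw [← hc, Units.smul_def, bin_smul, h2, mul_zero]

theorem many_of (hF : ∀ y, (F y).IsHomogeneous d) (hQ : Homog Q) {n : ℕ} (h : ∃ x ∈ locVar Q G, u x ∉ fewZeros Λ n F) :
    ∃ a y, Cone Q a ∧ (∃ i, eval a (G i) ≠ 0) ∧ Lf (Λ := Λ) u a y ∧ ∃ p : Fin n → Cn 2, (∀ i, p i ≠ 0 ∧ form (tht d F) y (p i) = 0) ∧ ∀ i j, i ≠ j → p i 0 * p j 1 ≠ p i 1 * p j 0 := by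
  obtain ⟨x, hx, hfew⟩ := h
  obtain ⟨y, hy⟩ := QuotientAddGroup.mk_surjective (u x)
  have h3 : HasZeros n (F y) := by
    by_contra hcon
    exact hfew ⟨y, hy, hcon⟩
  obtain ⟨p, hp, hz⟩ := h3
  obtain ⟨hxQ, i, hxi⟩ := hx
  have hx0 : x.rep ≠ 0 := x.rep_nonzero
  have hxmk : Projectivization.mk ℂ x.rep hx0 = x := x.mk_rep
  refine ⟨x.rep, y, cone_of_mem hQ hx0 (by rw [hxmk]; exact hxQ), ⟨i, hxi⟩, ⟨hx0, by rw [hxmk]; exact hy.symm⟩, fun i => (p i).rep, fun i => ⟨(p i).rep_nonzero, ?_⟩, fun i j hij h4 => ?_⟩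
  · rw [eval_form (hF y)]
    exact hz i
  · apply hij
    apply hp
    rw [← (p i).mk_rep, ← (p j).mk_rep]
    by_contra hne
    exact (Pool.Agent.PX.mk_ne (p i).rep_nonzero (p j).rep_nonzero).1 hne h4

end Pool.Agent.COP
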