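import Pool.Agent.PX.T.Geo
import Pool.Agent.LT.GD

/-!
# PX T GeoT: the varieties over `T` satisfy the hypotheses of the theorem on varieties of log general type
-/

set_option autoImplicit false

open Topology Filter Metric MvPolynomial
open Pool.Agent.H17 (PN VanishesAt)
open Pool.Agent.H17GT (coordFun)
open Pool.Agent.H17LG.Variety (FunField IsLogGeneralType ratio)
open Pool.Agent.H17R (coordFun_ne_zero_iff)
open Pool.Agent.H62.FC (Homog)
open Pool.Agent.H62.SA (locVar OnBd)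
open Pool.Agent.H7.Qup (exists_coord)
open Pool.Agent.PX (tht thetaForm_of)
open Pool.Agent.LG (BdG)
open Pool.Agent.COT (Lf gp_of bd_iff lft_of)

noncomputable section

namespace Pool.Agent.COP

variable {k N s d m : ℕ} {Λ : Sub k} {F : Poly k 1} {Q : Ideal (MvPolynomial (Fin (N + 1)) ℂ)} {G : Fin s → MvPolynomial (Fin (N + 1)) ℂ} {u : PN N → Torus Λ} {v : PN N → PN m}

theorem geo_of [Q.IsPrime] (hF : IsHolomorphicForm F d) (hA : IsAmple Λ F) (hm : 1 ≤ m) (hQ : Homog Q) (hG : ∀ i, ∃ n, (G i).IsHomogeneous n)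
    (h : IsFiniteOver Q G Λ (coprimeForms Λ m F) (fewZeros Λ (2 * m + 1) F) u v) {j₀ : Fin (N + 1)} (hj : coordFun Q j₀ ≠ 0) :
    Pool.Agent.LT.GeoT Q (fun i => ratio Q i j₀) Λ (tht d F) (Lf u) (Vf v) G := by
  obtain ⟨x, hx, -⟩ := h.notOver
  obtain ⟨y, hy⟩ := QuotientAddGroup.mk_surjective (u x)
  have hne : F y ≠ 0 := ne_zero_of_mem (Λ := Λ) (p := v x) hm (by rw [show pt Λ y = u x from hy]; exact h.maps x hx)
  exact ⟨inferInstance, hQ, gp_of hj, lft_of h.holomorphic, reg_of hF hA ⟨y, hne⟩ h.regularTorus, vmap_of h.regular, hG, off_of hF.homogeneous hG h.maps, fin_of h.finite,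
    many_of hF.homogeneous hQ h.notOver⟩

end Pool.Agent.COP
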