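import Pool.Agent.PX.T.GeoT
import Pool.Agent.LT.Zl

/-!
# PX T LGT: the varieties over `T` are of log general type
-/

set_option autoImplicit false

open Topology Filter Metric MvPolynomial
open Pool.Agent.H17 (PN VanishesAt)
open Pool.Agent.H17GT (coordFun)
open Pool.Agent.H17LG.Variety (FunField IsLogGeneralType ratio)
open Pool.Agent.H17R (coordFun_ne_zero_iff)
open Pool.Agent.H62.FC (Homog)
open Pool.Agent.H62.SA (locVar OnBd)
open Pool.Agent.H7.Qup (exists_coord)
open Pool.Agent.PX (tht thetaForm_of)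

noncomputable section

namespace Pool.Agent.COP

variable {k d m : ℕ} {Λ : Sub k} {F : Poly k 1}

theorem lgthm (hspan : Submodule.span ℝ (Λ : Set (Cn (k + 1))) = ⊤) (hF : IsHolomorphicForm F d) (hA : IsAmple Λ F) (hm : 1 ≤ m) : LGThm Λ (coprimeForms Λ m F) (fewZeros Λ (2 * m + 1) F) := by
  intro N s Q _ G u v hQ hG h w hw ⟨z, hz⟩
  obtain ⟨x, hx, -⟩ := h.notOver
  obtain ⟨j₀, hj₀⟩ := exists_coord hx
  have hj := coordFun_ne_zero_iff.2 hj₀
  exact Pool.Agent.H17LG.isLogGeneralType_translate (COT.bd_iff hj) (Pool.Agent.LT.lg_final_T hspan hm (thetaForm_of hF.to.to (COT.ample_to (ample_to hA))) (geo_of hF hA hm hQ hG h hj) hw hz)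

end Pool.Agent.COP
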