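import Pool.Agent.PX.T.FewT
import Pool.Agent.HE.FDefs

/-!
# PX T Minor: the set of the points over which the form is `0` or has few zeros is analytic
-/

set_option autoImplicit false

open Topology Filter Metric MvPolynomial
open Pool.Agent.H17 (PN VanishesAt)
open Pool.Agent.PX (tht ex)

noncomputable section

namespace Pool.Agent.COP

variable {k d σ n : ℕ}

/-- An injective matrix has a maximal minor which is not `0`. -/
theorem exists_minor {D : ℕ} {ι : Type} [Fintype ι] [DecidableEq ι] (M : Matrix (Fin D) ι ℂ) (h : ∀ c, M.mulVec c = 0 → c = 0) : ∃ r : ι → Fin D, (M.submatrix r id).det ≠ 0 := by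
  have hspan : Submodule.span ℂ (Set.range M.row) = ⊤ := by
    by_contra hne
    obtain ⟨f, hf, hf0⟩ := Submodule.exists_le_ker_of_lt_top _ (lt_top_iff_ne_top.2 hne)
    have h1 : ∀ x : ι → ℂ, f x = ∑ j, f (Pi.single j 1) * x j := by
      intro x
      conv_lhs => rw [← Finset.univ_sum_single x, map_sum]
      refine Finset.sum_congr rfl fun j _ => ?_
      have h2 : (Pi.single j (x j) : ι → ℂ) = x j • (Pi.single j 1 : ι → ℂ) := by rw [← Pi.single_smul, smul_eq_mul, mul_one]
      rw [h2, map_smul, smul_eq_mul, mul_comm]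
    have h2 : (fun j => f (Pi.single j 1)) = (0 : ι → ℂ) := by
      refine h _ ?_
      funext i
      have h3 : f (M.row i) = 0 := hf0 (Submodule.subset_span ⟨i, rfl⟩)
      rw [h1] at h3
      rw [Matrix.mulVec, dotProduct, Pi.zero_apply, ← h3]
      exact Finset.sum_congr rfl fun j _ => mul_comm _ _
    apply hf
    refine LinearMap.ext fun x => ?_
    rw [h1 x]
    exact Finset.sum_eq_zero fun j _ => by rw [congrFun h2 j, Pi.zero_apply, zero_mul]
  obtain ⟨κ, a, -, ha, hli⟩ := exists_linearIndependent' ℂ M.row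
  rw [hspan] at ha
  set b := Module.Basis.mk hli ha.ge with hb
  set e := (Pi.basisFun ℂ ι).indexEquiv b with he
  refine ⟨a ∘ e, ?_⟩
  have h1 : LinearIndependent ℂ (M.submatrix (a ∘ e) id).row := hli.comp e e.injective
  rw [Matrix.linearIndependent_rows_iff_isUnit, Matrix.isUnit_iff_isUnit_det] at h1
  exact h1.ne_zero

/-- the coefficients of `psi d g (e_j)` -/
def psiM (σ d : ℕ) (g : Polynomial ℂ) : Matrix (Fin (d + σ + 1)) (Ix σ) ℂ := Matrix.of fun i j => (psi d g (Pi.single j 1)).coeff i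

theorem natDegree_psi {g : Polynomial ℂ} (hg : g.natDegree ≤ d) (c : Ix σ → ℂ) : (psi d g c).natDegree ≤ d + σ := by
  rw [psi_apply]
  refine (Polynomial.natDegree_sub_le _ _).trans (max_le ?_ ?_)
  · by_cases h0 : Polynomial.derivative g = 0
    · rw [h0, mul_zero, Polynomial.natDegree_zero]
      exact Nat.zero_le _
    · have h1 : g.natDegree ≠ 0 := by
        intro h1
        apply h0
        rw [Polynomial.eq_C_of_natDegree_eq_zero h1, Polynomial.derivative_C]
      have h2 := Polynomial.natDegree_derivative_lt h1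
      have h3 := natDegree_qp c
      exact Polynomial.natDegree_mul_le.trans (by omega)
  · have h3 := natDegree_lp d c
    exact Polynomial.natDegree_mul_le.trans (by omega)

theorem mulVec_psiM (g : Polynomial ℂ) (c : Ix σ → ℂ) (i : Fin (d + σ + 1)) : (psiM σ d g).mulVec c i = (psi d g c).coeff i := by
  have h2 : c = ∑ j, c j • (Pi.single j 1 : Ix σ → ℂ) := by
    conv_lhs => rw [← Finset.univ_sum_single c]
    refine Finset.sum_congr rfl fun j _ => ?_
    rw [← Pi.single_smul, smul_eq_mul, mul_one]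
  conv_rhs => rw [h2, map_sum, Polynomial.finsetSum_coeff]
  rw [Matrix.mulVec, dotProduct]
  refine Finset.sum_congr rfl fun j _ => ?_
  rw [map_smul, Polynomial.coeff_smul, smul_eq_mul, mul_comm]
  rfl

theorem minors_iff {f : MvPolynomial (Fin 2) ℂ} (hf : f.IsHomogeneous d) :
    (∀ r : Ix σ → Fin (d + σ + 1), ((psiM σ d (gpoly d f)).submatrix r id).det = 0) ↔ ¬ (f ≠ 0 ∧ HasZeros (σ + 2) f) := by
  constructor
  · rintro h ⟨h0, h1⟩
    obtain ⟨r, hr⟩ := exists_minor (psiM σ d (gpoly d f)) fun c hc => by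
      have hinj := psi_inj (gpoly_ne hf h0) ((hasZeros_iff hf h0).1 h1)
      have h2 : psi d (gpoly d f) c = 0 := by
        ext i
        rw [Polynomial.coeff_zero]
        rcases Nat.lt_or_ge i (d + σ + 1) with h3 | h3
        · have h4 := congrFun hc ⟨i, h3⟩
          rw [mulVec_psiM] at h4
          exact h4
        · exact Polynomial.coeff_eq_zero_of_natDegree_lt ((natDegree_psi (natDegree_gpoly f) c).trans_lt (by omega))
      exact hinj (by rw [h2, map_zero])
    exact hr (h r)
  · intro h r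
    obtain ⟨c, hc, hc0⟩ : ∃ c : Ix σ → ℂ, c ≠ 0 ∧ psi d (gpoly d f) c = 0 := by
      by_cases h0 : f = 0
      · refine ⟨Pi.single (Sum.inl 0) 1, fun h1 => ?_, ?_⟩
        · have h2 := congrFun h1 (Sum.inl 0)
          rw [Pi.single_eq_same] at h2
          exact one_ne_zero h2
        · have h1 : gpoly d f = 0 := by
            unfold gpoly
            rw [h0]
            exact Finset.sum_eq_zero fun i _ => by rw [coeff_zero, zero_smul]
          rw [h1, psi_apply, Polynomial.derivative_zero, mul_zero, mul_zero, sub_zero]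
      · have h1 : ¬ HasZeros (σ + 2) f := fun h2 => h ⟨h0, h2⟩
        rw [hasZeros_iff hf h0] at h1
        exact psi_ker (gpoly_ne hf h0) (natDegree_gpoly f) (by omega)
    refine Matrix.exists_mulVec_eq_zero_iff.1 ⟨c, hc, ?_⟩
    funext i
    have h1 : ((psiM σ d (gpoly d f)).submatrix r id).mulVec c i = (psiM σ d (gpoly d f)).mulVec c (r i) := rfl
    rw [h1, mulVec_psiM, hc0]
    rfl

/-- the points of `A` over which the form is `0` or has less than `n` zeros -/
def few' (Λ : Sub k) (n : ℕ) (F : Poly k 1) : Set (Torus Λ) := {t | ∃ y : Cn (k + 1), pt Λ y = t ∧ ¬ (F y ≠ 0 ∧ HasZeros n (F y))}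

theorem hasZeros_C_mul {n : ℕ} {e : ℂ} (he : e ≠ 0) {f : MvPolynomial (Fin 2) ℂ} : HasZeros n (C e * f) ↔ HasZeros n f := by
  unfold HasZeros VanishesAt
  simp only [map_mul, eval_C, mul_eq_zero, he, false_or]

theorem mem_few' {Λ : Sub k} {F : Poly k 1} (hq : ∀ l ∈ Λ, ∀ y, ∃ e : ℂ, e ≠ 0 ∧ F (y + l) = C e * F y) (y : Cn (k + 1)) : pt Λ y ∈ few' Λ n F ↔ ¬ (F y ≠ 0 ∧ HasZeros n (F y)) := by
  constructor
  · rintro ⟨y', hy', h⟩
    have h2 : -y' + y ∈ Λ := QuotientAddGroup.eq.1 hy'
    obtain ⟨e, he, h3⟩ := hq _ h2 y'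
    have h4 : y' + (-y' + y) = y := by abel
    rw [h4] at h3
    rw [h3, hasZeros_C_mul he]
    rintro ⟨h5, h6⟩
    exact h ⟨fun h7 => h5 (by rw [h7, mul_zero]), h6⟩
  · exact fun h => ⟨y, rfl, h⟩

theorem analytic_few' {Λ : Sub k} {F : Poly k 1} (hF : IsHolomorphicForm F d) (hq : ∀ l ∈ Λ, ∀ y, ∃ e : ℂ, e ≠ 0 ∧ F (y + l) = C e * F y) : Pool.Agent.HEF.IsAnalyticIn Λ (few' Λ (σ + 2) F) := by
  classical
  intro y₀
  have hent : ∀ i j, Differentiable ℂ fun y => psiM σ d (gpoly d (F y)) i j := by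
    intro i j
    have h3 : (fun y => psiM σ d (gpoly d (F y)) i j) = fun y => ∑ l : Fin (d + 1), (F y).coeff (ex d l) * (psi (σ := σ) d (Polynomial.X ^ (l : ℕ)) (Pi.single j 1)).coeff i := by
      funext y
      change (psi d (∑ i : Fin (d + 1), (F y).coeff (ex d i) • Polynomial.X ^ (i : ℕ)) (Pi.single j 1)).coeff i = _
      rw [psi_sum, Polynomial.finsetSum_coeff]
      exact Finset.sum_congr rfl fun l _ => by rw [Polynomial.coeff_smul, smul_eq_mul]
    rw [h3]
    exact Differentiable.fun_sum fun l _ => (hF.holomorphic _).mul_const _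
  have hdet : ∀ r : Ix σ → Fin (d + σ + 1), Differentiable ℂ fun y => ((psiM σ d (gpoly d (F y))).submatrix r id).det := by
    intro r
    have h3 : (fun y => ((psiM σ d (gpoly d (F y))).submatrix r id).det) = fun y => ∑ τ : Equiv.Perm (Ix σ), ((Equiv.Perm.sign τ : ℤ) : ℂ) * ∏ i, psiM σ d (gpoly d (F y)) (r (τ i)) i :=
      funext fun y => Matrix.det_apply' _
    rw [h3]
    refine Differentiable.fun_sum fun τ _ => Differentiable.const_mul ?_ _
    exact fun y => (HasFDerivAt.finsetProd fun i _ => (hent _ _ y).hasFDerivAt).differentiableAt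
  have e := Fintype.equivFin (Ix σ → Fin (d + σ + 1))
  refine ⟨_, fun i y => ((psiM σ d (gpoly d (F y))).submatrix (e.symm i) id).det, fun i => ?_, Eventually.of_forall fun y => ?_⟩
  · exact Pool.Agent.PX.an_vd (hdet (e.symm i)) y₀
  · rw [show ((y : Cn (k + 1) ⧸ Λ) ∈ few' Λ (σ + 2) F) = (pt Λ y ∈ few' Λ (σ + 2) F) from rfl, mem_few' hq, ← minors_iff (hF.homogeneous y)]
    exact ⟨fun h i => h _, fun h r => by simpa using h (e r)⟩

end Pool.Agent.COP
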