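import Pool.Agent.PX.T.Spec
import Pool.Agent.PX.T.Minor
import Pool.Agent.TM.HDm
import Pool.Agent.HE.F.Main

/-!
# PX T Pm: the complement `T` is hyperbolic modulo the fibres over `S`
-/

set_option autoImplicit false

open Topology Filter Metric MvPolynomial
open Pool.Agent.H17 (PN VanishesAt HolomorphicInto puncturedDisc)
open Pool.Agent.H36.BP (EN)
open Pool.Agent.AD (Vd)
open Pool.Agent.PX (tht ex Fo Fd dt PD)
open Pool.Agent.TM (tv rs bf RM FT)
open Pool.Agent.HEF (outside)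

noncomputable section

namespace Pool.Agent.COP

variable {k m d r : ℕ} {Λ : Sub k} {F : Poly k 1}

theorem quasi_ne (hF : IsAmple Λ F) : ∀ l ∈ Λ, ∀ y, ∃ e : ℂ, e ≠ 0 ∧ F (y + l) = C e * F y := by
  obtain ⟨r, W, -, h⟩ := hF
  intro l hl y
  obtain ⟨e, he, h1⟩ := h.quasiPeriodic l hl y
  exact ⟨e, fun h0 => (Real.exp_pos _).ne' (by rw [← he, h0, norm_zero]), h1⟩

theorem fo_eq {y : Cn (k + 1)} (hF : (F y).IsHomogeneous d) (v : EN 1) : Fo (tht d F) y v = eval v.ofLp (F y) := Pool.Agent.PX.eval_form hF v.ofLp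

theorem bf_eq (x : EN m) (v : EN 1) : bf x v = bin x.ofLp v.ofLp := rfl

/-- the roots -/
theorem exists_r {y : Cn (k + 1)} (hF : (F y).IsHomogeneous d) {n : ℕ} (h : HasZeros n (F y)) : ∃ r : Fin n → EN 1, (∀ i j, i ≠ j → dt (r i) (r j) ≠ 0) ∧ ∀ i, Fo (tht d F) y (r i) = 0 := by
  obtain ⟨p, hp, hz⟩ := h
  refine ⟨fun i => WithLp.toLp 2 (p i).rep, fun i j hij h4 => hij (hp ?_), fun i => ?_⟩
  · rw [← (p i).mk_rep, ← (p j).mk_rep]
    by_contra hne
    exact (Pool.Agent.PX.mk_ne (p i).rep_nonzero (p j).rep_nonzero).1 hne (sub_eq_zero.1 h4)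
  · rw [fo_eq hF]
    exact hz i

theorem hasZeros_of {y : Cn (k + 1)} (hF : (F y).IsHomogeneous d) {n : ℕ} (r : Fin n → EN 1) (h0 : ∀ i, r i ≠ 0) (hr : ∀ i j, i ≠ j → dt (r i) (r j) ≠ 0) (hz : ∀ i, Fo (tht d F) y (r i) = 0) : HasZeros n (F y) := by
  have h1 : ∀ i, (r i).ofLp ≠ 0 := fun i => Pool.Agent.HE.ofLp_ne (h0 i)
  refine ⟨fun i => Projectivization.mk ℂ (r i).ofLp (h1 i), fun i j h2 => ?_, fun i => ?_⟩
  · by_contra hij
    exact (Pool.Agent.PX.mk_ne (h1 i) (h1 j)).2 (fun h3 => hr i j hij (sub_eq_zero.2 h3)) h2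
  · rw [Pool.Agent.PX.vanishes_iff hF, ← fo_eq hF]
    exact hz i

theorem hasZeros_mono {n n' : ℕ} (h : n ≤ n') {f : MvPolynomial (Fin 2) ℂ} (hf : HasZeros n' f) : HasZeros n f := by
  obtain ⟨p, hp, hz⟩ := hf
  exact ⟨fun i => p (Fin.castLE h i), fun i j hij => Fin.castLE_injective h (hp hij), fun i => hz _⟩

/-- the equation of the complement of `T` -/
def RF (d m : ℕ) (F : Poly k 1) : Poly k m := fun y => RM m (tv (tht d F) y)

theorem van_RF (y : Cn (k + 1)) (p : PN m) : VanishesAt (RF d m F y) p ↔ rs (tv (tht d F) y) (WithLp.toLp 2 p.rep : EN m) = 0 := by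
  unfold RF VanishesAt
  rw [← Pool.Agent.TM.RM_eval]

/-- the complement -/
theorem outside_RF (hF : ∀ y, (F y).IsHomogeneous d) (hd : 0 < d) : outside Λ Set.univ (fun _ : Fin 1 => RF d m F) = coprimeForms Λ m F := by
  ext ⟨t, p⟩
  have key : ∀ y : Cn (k + 1), ¬ VanishesAt (RF d m F y) p ↔ ∀ q : Cn 2, q ≠ 0 → eval q (F y) = 0 → bin p.rep q ≠ 0 := by
    intro y
    rw [van_RF, Pool.Agent.TM.rs_zero (by omega)]
    constructor
    · intro h q hq h1 h2
      refine h ⟨WithLp.toLp 2 q, Pool.Agent.HE.toLp_ne hq, ?_, h2⟩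
      rw [Pool.Agent.TM.bf_tv, fo_eq (hF y)]
      exact h1
    · rintro h ⟨v, hv, h1, h2⟩
      rw [Pool.Agent.TM.bf_tv, fo_eq (hF y)] at h1
      exact h v.ofLp (Pool.Agent.HE.ofLp_ne hv) h1 h2
  constructor
  · intro h y hy
    exact (key y).1 (h.2 y hy 0)
  · intro h
    exact ⟨Set.mem_univ _, fun y hy _ => (key y).2 (h y hy)⟩

theorem hyp_of [DiscreteTopology Λ] (hspan : Submodule.span ℝ (Λ : Set (Cn (k + 1))) = ⊤) (hB : IsBinaryForm Λ F d) (hF : IsReducedOverSimple Λ F) (hm : 1 ≤ m) (hd : 2 * m < d) :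
    Pool.Agent.HE.IsHyp Λ Set.univ (fun _ : Fin 1 => RF d m F) (few' Λ (2 * m + 1) F) := by
  have hhom := hB.homogeneous
  have hample : IsAmple Λ F := hB.ample (by omega)
  have htheta := Pool.Agent.PX.thetaForm_of hB.form.to.to (COT.ample_to (ample_to hample))
  have hred : HEF.IsReducedDivisor Λ F d := COT.IsReducedDivisor.to ⟨hF.simple, by omega, hB.form.to, ample_to hample, hF.simpleZeros, hF.codimension⟩
  obtain ⟨r, W, D, Bad, P⟩ := Pool.Agent.PX.exists_data Λ hspan hF.simple (by omega) htheta (Pool.Agent.PX.reduced_of hred)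
  have hqn := quasi_ne hample
  have hfo0 : ∀ y, F y ≠ 0 → ∃ i, tht d F i y ≠ 0 := fun y h => (Pool.Agent.PX.eq_zero_iff (hhom y)).1 h
  obtain ⟨σ, hσ⟩ : ∃ σ, 2 * m + 1 = σ + 2 := ⟨2 * m - 1, by omega⟩
  refine ⟨?_, fun _ => ?_, ?_, Or.inl ⟨hF.simple, ?_⟩, fun y hy => ?_, fun y₀ _ => ⟨m, 1, one_pos, Eventually.of_forall fun y hy => ?_⟩, ?_⟩
  · exact fun y₀ => ⟨1, 0, fun i => i.elim0, fun i => i.elim0, one_pos, fun i => i.elim0, fun y _ p => ⟨fun _ i => i.elim0, fun _ => Set.mem_univ _⟩⟩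
  · obtain ⟨r', W', -, hsec⟩ := hample
    refine ⟨r', fun j => (Real.sqrt m : ℂ) • W' j, ⟨d, by omega, fun y _ => Pool.Agent.TM.RM_hom m _, fun α => ?_⟩, fun l hl y => ?_⟩
    · exact ((Pool.Agent.TM.RM_diff m α).comp (Pool.Agent.TM.tv_diff P.an)).differentiableOn
    · obtain ⟨e, he, h1⟩ := hsec.quasiPeriodic l hl y
      have h2 : tv (tht d F) (y + l) = e • tv (tht d F) y := by
        ext i
        change (F (y + l)).coeff (ex d i) = e * (F y).coeff (ex d i)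
        rw [h1, coeff_C_mul]
      refine ⟨e ^ m, ?_, ?_⟩
      · rw [norm_pow, he, ← Real.exp_nat_mul]
        congr 1
        have h3 : ∀ z : Cn (k + 1), ∑ j, ‖((Real.sqrt m : ℂ) • W' j) z‖ ^ 2 = m * ∑ j, ‖W' j z‖ ^ 2 := by
          intro z
          rw [Finset.mul_sum]
          refine Finset.sum_congr rfl fun j _ => ?_
          have h4 : ((Real.sqrt m : ℂ) • W' j) z = (Real.sqrt m : ℂ) * W' j z := rfl
          rw [h4, norm_mul, Complex.norm_real, Real.norm_of_nonneg (Real.sqrt_nonneg _), mul_pow, Real.sq_sqrt (Nat.cast_nonneg m)]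
        rw [h3, h3]
        ring
      · change RM m (tv (tht d F) (y + l)) = C (e ^ m) * RM m (tv (tht d F) y)
        rw [h2, Pool.Agent.TM.RM_smul]
  · rw [hσ]
    exact analytic_few' hB.form hqn
  · intro hS
    obtain ⟨z, hz⟩ := (P.iso (Pi.single 0 1 : Vd (k + 1)) (fun h => one_ne_zero (α := ℂ) (by simpa using congrFun h (0 : Fin (k + 1)))) 0).exists
    set y := (0 : Vd (k + 1)) + z • (Pi.single 0 1 : Vd (k + 1)) with hy
    obtain ⟨ρ, r, hρ, -, h1, h2, -⟩ := Pool.Agent.TM.roots_near (by omega) P.an (P.simple y hz)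
    have h3 : HasZeros d (F y) := hasZeros_of (hhom y) (fun i => r i y) (fun i => (h1 y (mem_ball_self hρ) i).1) (h2 y (mem_ball_self hρ)) fun i => (h1 y (mem_ball_self hρ) i).2
    have h4 : pt Λ y ∈ few' Λ (2 * m + 1) F := by
      rw [hS]
      exact Set.mem_univ _
    refine (mem_few' hqn y).1 h4 ⟨fun h5 => ?_, hasZeros_mono (by omega) h3⟩
    -- the form is not `0`
    obtain ⟨v, hv⟩ := P.simple y hz (EuclideanSpace.single (0 : Fin 2) (1 : ℂ)) (by simp) (by rw [fo_eq (hhom y), h5, map_zero])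
    apply hv
    have h6 : Fo (tht d F) y = fun _ => 0 := by
      funext v
      rw [fo_eq (hhom y), h5, map_zero]
    unfold Fd
    rw [h6]
    simp
  · have h1 : F y ≠ 0 ∧ HasZeros (2 * m + 1) (F y) := by
      by_contra hcon
      exact hy ((mem_few' hqn y).2 hcon)
    obtain ⟨r, hr, hz⟩ := exists_r (hhom y) h1.2
    exact Pool.Agent.TM.fibre_hyp P.an (by omega) (hfo0 y h1.1) r hr hz
  · have h1 : F y ≠ 0 ∧ HasZeros (2 * m + 1) (F y) := by
      by_contra hcon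
      exact hy ((mem_few' hqn y).2 hcon)
    obtain ⟨r, hr, hz⟩ := exists_r (hhom y) h1.2
    exact Pool.Agent.TM.hypersurf (by omega) (by omega) r hr hz
  · obtain ⟨C, hC, hb⟩ := Pool.Agent.TM.bound P (by omega : 0 < m) hd
    refine ⟨C, hC, fun w h hc => hb w h ⟨hc.w_diff, hc.h_diff, hc.w_ne, fun _ _ => Set.mem_univ _, fun j z hz h0 => hc.ne j z hz ?_⟩⟩
    change eval (w z).ofLp (RM m (tv (tht d F) (h z))) = 0
    rw [Pool.Agent.TM.RM_eval]
    exact h0

/-- a point of `A` with a nonempty fibre, over which the form has `n` zeros -/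
theorem not_few' {n : ℕ} (hA : IsAmple Λ F) (hm : 1 ≤ m) {t : Torus Λ} {p : PN m} (h : (t, p) ∈ coprimeForms Λ m F) (ht : t ∉ fewZeros Λ n F) : t ∉ few' Λ n F := by
  obtain ⟨y, rfl⟩ := QuotientAddGroup.mk_surjective t
  intro h1
  refine (mem_few' (quasi_ne hA) y).1 h1 ⟨ne_zero_of_mem (Λ := Λ) hm h, ?_⟩
  by_contra hcon
  exact ht ⟨y, rfl, hcon⟩

theorem pm_hyp [DiscreteTopology Λ] (hspan : Submodule.span ℝ (Λ : Set (Cn (k + 1))) = ⊤) (hB : IsBinaryForm Λ F d) (hF : IsReducedOverSimple Λ F) (hm : 1 ≤ m) (hd : 2 * m < d) :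
    PXF.IsHyperbolicModulo Λ (coprimeForms Λ m F) (fewZeros Λ (2 * m + 1) F) ∧ HEF.KobayashiPositive Λ (coprimeForms Λ m F) (fewZeros Λ (2 * m + 1) F) := by
  have hΛ := Pool.Agent.TGF.gu_lat Λ hspan
  have hample : IsAmple Λ F := hB.ample (by omega)
  have H := hyp_of hspan hB hF hm hd
  have h1 := H.hyperbolic hΛ
  have h2 := H.kobayashi hΛ
  rw [outside_RF hB.homogeneous (by omega)] at h1 h2
  refine ⟨⟨h1.discs, fun t g hc z w => ⟨(h1.entire t g hc z w).1, fun h3 => (h1.entire t g hc z w).2 (not_few' hample hm (hc.mem z (Set.mem_univ z)) h3)⟩, fun t g hc => ⟨(h1.punctured t g hc).1, ?_⟩⟩, fun y hy hp => ?_⟩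
  · rintro ⟨z, hz, h3⟩
    exact (h1.punctured t g hc).2 ⟨z, hz, not_few' hample hm (hc.mem z hz) h3⟩
  · obtain ⟨p, hp⟩ := hp
    exact h2 y (not_few' hample hm hp hy) ⟨p, hp⟩

end Pool.Agent.COP
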