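import Pool.Agent.PX.T.Top

/-!
# PX T Spec: the points over which the form has few zeros, and the complement `T`
-/

set_option autoImplicit false

open Topology Filter Metric MvPolynomial
open Pool.Agent.H17 (PN VanishesAt)

noncomputable section

namespace Pool.Agent.COP

variable {k m d : ℕ} {Λ : Sub k}

/-- the polynomial of a binary form -/
def bpoly (x : Cn (m + 1)) : Polynomial ℂ := ∑ i : Fin (m + 1), x i • Polynomial.X ^ (i : ℕ)

theorem coeff_bpoly (x : Cn (m + 1)) (i : Fin (m + 1)) : (bpoly x).coeff i = x i := by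
  unfold bpoly
  simp only [Polynomial.finsetSum_coeff, Polynomial.coeff_smul, Polynomial.coeff_X_pow, smul_eq_mul, mul_ite, mul_one, mul_zero]
  rw [Finset.sum_eq_single i]
  · simp
  · intro j _ hj
    rw [if_neg]
    intro h2
    exact hj (Fin.ext h2.symm)
  · intro h2
    exact absurd (Finset.mem_univ _) h2

theorem eval_bpoly (x : Cn (m + 1)) (α : ℂ) : (bpoly x).eval α = bin x ![α, 1] := by
  unfold bpoly bin
  rw [Polynomial.eval_finsetSum]
  refine Finset.sum_congr rfl fun i _ => ?_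
  simp

theorem bin_inf (x : Cn (m + 1)) : bin x ![1, 0] = x (Fin.last m) := by
  unfold bin
  rw [Finset.sum_eq_single (Fin.last m)]
  · simp
  · intro i _ hi
    have h1 : m - (i : ℕ) ≠ 0 := by
      have h2 := i.2
      have h3 : (i : ℕ) ≠ m := fun h => hi (Fin.ext h)
      omega
    simp [h1]
  · intro h2
    exact absurd (Finset.mem_univ _) h2

/-- A binary form of positive degree has a zero. -/
theorem exists_zero (hm : 1 ≤ m) (x : Cn (m + 1)) : ∃ p : Cn 2, p ≠ 0 ∧ bin x p = 0 := by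
  by_cases h : (bpoly x).degree = 0
  · refine ⟨![1, 0], fun h0 => one_ne_zero (congrFun h0 0), ?_⟩
    rw [bin_inf]
    have h1 := coeff_bpoly x (Fin.last m)
    rw [Polynomial.coeff_eq_zero_of_degree_lt] at h1
    · exact h1.symm
    · rw [h, Fin.val_last]
      exact_mod_cast hm
  · obtain ⟨α, hα⟩ := IsAlgClosed.exists_root (bpoly x) h
    refine ⟨![α, 1], fun h0 => one_ne_zero (congrFun h0 1), ?_⟩
    rw [← eval_bpoly]
    exact hα

theorem bin_smul (c : ℂ) (x : Cn (m + 1)) (p : Cn 2) : bin (c • x) p = c * bin x p := by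
  unfold bin
  rw [Finset.mul_sum]
  refine Finset.sum_congr rfl fun i _ => ?_
  rw [Pi.smul_apply, smul_eq_mul]
  ring

/-- The form is not `0` where the fibre of `T` is not empty. -/
theorem ne_zero_of_mem (hm : 1 ≤ m) {F : Poly k 1} {y : Cn (k + 1)} {p : PN m} (h : (pt Λ y, p) ∈ coprimeForms Λ m F) : F y ≠ 0 := by
  intro h0
  obtain ⟨q, hq, hz⟩ := exists_zero hm p.rep
  exact h y rfl q hq (by rw [h0, map_zero]) hz

theorem quasi_of {F : Poly k 1} (hF : IsAmple Λ F) : ∀ l ∈ Λ, ∀ y, ∃ e : ℂ, F (y + l) = C e * F y := by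
  obtain ⟨r, W, -, h⟩ := hF
  intro l hl y
  obtain ⟨e, -, he⟩ := h.quasiPeriodic l hl y
  exact ⟨e, he⟩

theorem spec_of {F : Poly k 1} (hF : IsHolomorphicForm F d) (hA : IsAmple Λ F) (hm : 1 ≤ m) : IsSpec Λ (coprimeForms Λ m F) (fewZeros Λ (2 * m + 1) F) := by
  rintro y₁ hy₁ ⟨p, hp⟩
  have h0 := ne_zero_of_mem hm hp
  have h1 : HasZeros (2 * m + 1) (F y₁) := by
    by_contra hcon
    exact hy₁ ⟨y₁, rfl, hcon⟩
  obtain ⟨σ, hσ⟩ : ∃ σ, 2 * m + 1 = σ + 2 := ⟨2 * m - 1, by omega⟩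
  rw [hσ] at h1 ⊢
  obtain ⟨θ, hθ, hq, hθ1, hz⟩ := exists_theta hF (quasi_of hA) h0 h1
  refine ⟨θ, hθ, hq, hθ1, ?_⟩
  rintro y ⟨y', hy', hn⟩
  have h2 : -y' + y ∈ Λ := QuotientAddGroup.eq.1 hy'
  obtain ⟨e, he⟩ := hq _ h2 y'
  rw [show y = y' + (-y' + y) by abel, he, hz y' hn, mul_zero]

end Pool.Agent.COP
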