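import Pool.Agent.PX.T.FewT
import Pool.Agent.PX.S.DomF

/-!
# PX T Top: the four properties for the varieties over a complement
-/

set_option autoImplicit false

open Topology Filter Metric MvPolynomial
open Pool.Agent.H17 (PN VanishesAt HolomorphicInto puncturedDisc ZariskiClosedIn vanishesAt_mk_iff)
open Pool.Agent.H17EF (projVar)
open Pool.Agent.H17LG.Variety (FunField IsLogGeneralType)
open Pool.Agent.H62.FC (Homog)
open Pool.Agent.H62.SA (locVar OnBd)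
open Pool.Agent.H7.Bir (vals rmap)
open Pool.Agent.H7.Qup (IsDominantMap Rep exists_coord exists_eq aeval_homog eval_smul exists_compat logGT_up)

noncomputable section

namespace Pool.Agent.COP

variable {k m d N s : ℕ} {Λ : Sub k} {T : Set (Prd Λ m)} {S : Set (Torus Λ)}

theorem IsCurveIn.to {t : ℂ → Torus Λ} {g : ℂ → PN m} {U : Set ℂ} (h : IsCurveIn Λ T t g U) : PXF.IsCurveIn Λ T t g U := ⟨h.torus, h.proj, h.mem⟩

theorem hyperbolic_of (h : PXF.IsHyperbolicModulo Λ T S) : IsHyperbolicModulo Λ T S where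
  discs := by
    obtain ⟨C, hC⟩ := h.discs
    exact ⟨C, fun f g hf hg => hC f g hf hg.to⟩
  entire := fun t g hg => h.entire t g hg.to
  punctured := fun t g hg => h.punctured t g hg.to

theorem kobayashi_of (h : HEF.KobayashiPositive Λ T S) : KobayashiPositive Λ T S := by
  intro y hy hp
  obtain ⟨C, hC⟩ := h y hy hp
  exact ⟨C, hC.mono fun y' hy' t g φ hg => hy' t g φ hg.to⟩

theorem IsHolomorphicForm.to {F : Poly k m} (h : IsHolomorphicForm F d) : COT.IsHolomorphicForm Set.univ F d := ⟨fun y _ => h.homogeneous y, fun α => (h.holomorphic α).differentiableOn⟩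

theorem ample_to {F : Poly k m} (h : IsAmple Λ F) : COT.IsAmple Λ F := by
  obtain ⟨r, W, hW, h⟩ := h
  obtain ⟨d, hd, hF⟩ := h.form
  exact ⟨r, W, hW, ⟨d, hd, hF.to⟩, h.quasiPeriodic⟩

/-- the algebraic properties -/
structure AlgProperties (P : Ideal (MvPolynomial (Fin (N + 1)) ℂ)) [P.IsPrime] {s : ℕ} (G : Fin s → MvPolynomial (Fin (N + 1)) ℂ) (Ξ : Set (PN N)) : Prop where
  closed : ZariskiClosedIn (locVar P G) Ξ
  proper : Ξ ≠ locVar P G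
  all : ∀ (Q : Ideal (MvPolynomial (Fin (N + 1)) ℂ)) [Q.IsPrime], Homog Q → P ≤ Q → ¬ locVar Q G ⊆ Ξ →
    ∀ w, 1 ≤ w → (∃ z : Fin w → FunField Q, IsTranscendenceBasis ℂ z) → IsLogGeneralType (OnBd Q G (k := w))

theorem AlgProperties.not_sub {P : Ideal (MvPolynomial (Fin (N + 1)) ℂ)} [P.IsPrime] {G : Fin s → MvPolynomial (Fin (N + 1)) ℂ} {Ξ : Set (PN N)} (h : AlgProperties P G Ξ) : ¬ locVar P G ⊆ Ξ := by
  obtain ⟨S, -, hS⟩ := h.closed
  exact fun h1 => h.proper (Set.Subset.antisymm (fun x hx => by rw [hS] at hx; exact hx.1) h1)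

theorem four_to {h : Prop} {P : Ideal (MvPolynomial (Fin (N + 1)) ℂ)} [P.IsPrime] {G : Fin s → MvPolynomial (Fin (N + 1)) ℂ} {Ξ : Set (PN N)} (hF : COT.FourProperties P G Ξ) : FourProperties h P G Ξ :=
  ⟨hF.closed, hF.proper, hF.logGeneralType, fun _ => hF.picard, fun _ => hF.brody, hF.all⟩

theorem four_alg {h : Prop} (hn : ¬ h) {P : Ideal (MvPolynomial (Fin (N + 1)) ℂ)} [P.IsPrime] (hP : Homog P) {G : Fin s → MvPolynomial (Fin (N + 1)) ℂ} {Ξ : Set (PN N)} (hF : AlgProperties P G Ξ) : FourProperties h P G Ξ :=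
  ⟨hF.closed, hF.proper, hF.all P hP le_rfl hF.not_sub, fun h1 => absurd h1 hn, fun h1 => absurd h1 hn, hF.all⟩

/-- **Dominant regular maps of quasi-projective varieties of the same dimension.** -/
theorem alg_dominant {M s' : ℕ} {P : Ideal (MvPolynomial (Fin (N + 1)) ℂ)} {P' : Ideal (MvPolynomial (Fin (M + 1)) ℂ)} {G : Fin s → MvPolynomial (Fin (N + 1)) ℂ} {G' : Fin s' → MvPolynomial (Fin (M + 1)) ℂ} {p : PN M → PN N}
    {k : ℕ} [P.IsPrime] [P'.IsPrime] (hP : Homog P) (hP' : Homog P') (hz : ∃ z : Fin (k + 1) → FunField P, IsTranscendenceBasis ℂ z)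
    (hz' : ∃ z' : Fin (k + 1) → FunField P', IsTranscendenceBasis ℂ z') (hG : ∀ m, ∃ n, (G m).IsHomogeneous n) (hG' : ∀ m, ∃ n, (G' m).IsHomogeneous n) (hp : IsDominantMap P P' G G' p)
    {Ξ : Set (PN N)} (h : AlgProperties P G Ξ) : ∃ Ξ' : Set (PN M), AlgProperties P' G' Ξ' := by
  obtain ⟨y₀, hy₀⟩ := hp.nonempty
  have hne : (locVar P' G').Nonempty := ⟨y₀, hy₀⟩
  obtain ⟨z, hz1⟩ := hz
  obtain ⟨z', hz1'⟩ := hz'
  obtain ⟨S, hS, hΞS⟩ := h.closed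
  obtain ⟨x₁, hx₁, R, hRS, hRx₁⟩ : ∃ x ∈ locVar P G, ∃ R ∈ S, ¬ VanishesAt R x := by
    by_contra hcon
    push Not at hcon
    apply h.proper
    rw [hΞS]
    ext y
    exact ⟨fun hy => hy.1, fun hy => ⟨hy, fun R hR => hcon y hy R hR⟩⟩
  obtain ⟨nR, hnR⟩ := hS R hRS
  have hRP : R ∉ P := fun h1 => hRx₁ (hx₁.1 R h1 nR hnR)
  have hRv : ∀ x ∈ Ξ, VanishesAt R x := by
    intro x hx
    rw [hΞS] at hx
    exact hx.2 R hRS
  obtain ⟨j, hj⟩ := exists_coord hy₀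
  choose m D₁ α hα hαP hrel using exists_eq hp hP' hG' hne hz1 hz1' hj
  obtain ⟨D, γ, hγ, hv⟩ := hp.exists_rep hy₀
  have hmaps := hp.maps_iff hP' hG' hγ ⟨y₀, hy₀, hv⟩
  obtain ⟨k₀, hk₀⟩ : ∃ k, eval y₀.rep (γ k) ≠ 0 := by
    by_contra hcon
    push Not at hcon
    exact hv (funext hcon)
  have hkP : γ k₀ ∉ P' := fun h1 => hk₀ (hy₀.1 _ h1 D (hγ.hom k₀))
  set B : MvPolynomial (Fin (N + 1)) ℂ := R * ∏ i, α i (Fin.last (m i)) with hB
  have hBhom : B.IsHomogeneous (nR + ∑ i, D₁ i) := hnR.mul (IsHomogeneous.prod _ _ _ fun i _ => hα i _)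
  have hBP : B ∉ P := by
    intro h1
    rcases Ideal.IsPrime.mem_or_mem inferInstance h1 with h2 | h2
    · exact hRP h2
    · obtain ⟨i, -, h3⟩ := (Ideal.IsPrime.prod_mem_iff (p := P)).1 h2
      exact hαP i h3
  set T : MvPolynomial (Fin (M + 1)) ℂ := aeval γ B * γ k₀ * X j with hT
  have hThom : T.IsHomogeneous (D * (nR + ∑ i, D₁ i) + D + 1) := ((aeval_homog hγ.hom hBhom).mul (hγ.hom k₀)).mul (isHomogeneous_X ℂ j)
  have hTP : T ∉ P' := by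
    intro h1
    rcases Ideal.IsPrime.mem_or_mem inferInstance h1 with h2 | h2
    · rcases Ideal.IsPrime.mem_or_mem inferInstance h2 with h3 | h3
      · exact hBP ((hmaps _ B hBhom).1 h3)
      · exact hkP h3
    · exact hj h2
  have key : ∀ y ∈ locVar P' G', ¬ VanishesAt T y → y.rep j ≠ 0 ∧ ¬ VanishesAt R (p y) ∧ ∀ i, ¬ VanishesAt (α i (Fin.last (m i))) (p y) := by
    intro y hy hTy
    unfold VanishesAt at hTy
    rw [hT, map_mul, map_mul, mul_eq_zero, mul_eq_zero, not_or, not_or, eval_X] at hTy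
    obtain ⟨⟨h1, h2⟩, h3⟩ := hTy
    have h4 : vals γ y.rep ≠ 0 := fun h0 => h2 (congrFun h0 k₀)
    have h5 : ¬ VanishesAt B (p y) := by
      rw [hγ.vanishes_iff hy h4 hBhom]
      exact h1
    unfold VanishesAt at h5
    rw [hB, map_mul, mul_eq_zero, not_or, map_prod, Finset.prod_eq_zero_iff] at h5
    push Not at h5
    exact ⟨h3, h5.1, fun i => h5.2 i (Finset.mem_univ i)⟩
  refine ⟨{x | x ∈ locVar P' G' ∧ VanishesAt T x}, ⟨{T}, fun S hS => ?_, ?_⟩, fun heq => ?_, fun Q' _ hQ' hPQ' hQΞ w hw hzw => ?_⟩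
  · rw [Set.mem_singleton_iff.1 hS]
    exact ⟨_, hThom⟩
  · ext x
    exact ⟨fun h1 => ⟨h1.1, fun S hS => by rw [Set.mem_singleton_iff.1 hS]; exact h1.2⟩, fun h1 => ⟨h1.1, h1.2 T rfl⟩⟩
  · apply hTP
    refine Pool.Agent.H7.Bir.mem_of_open hP' hG' hne hThom fun x hx => ?_
    rw [← heq] at hx
    exact hx.2
  obtain ⟨y, hyQ, hy⟩ := Set.not_subset.1 hQΞ
  have hyP : y ∈ locVar P' G' := COT.locVar_mono hPQ' hyQ
  obtain ⟨h1, h2, h3⟩ := key y hyP fun h4 => hy ⟨hyP, h4⟩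
  obtain ⟨Q, _, hQ, hPQ, hpQ⟩ := COT.exists_image hP hP' hG' hp Q' hQ' hPQ' ⟨y, hyQ⟩
  have hjQ : X j ∉ Q' := by
    intro h4
    apply h1
    have h5 := hyQ.1 _ h4 1 (isHomogeneous_X ℂ j)
    unfold VanishesAt at h5
    rwa [eval_X] at h5
  have hzQ : ∃ z : Fin w → FunField Q, IsTranscendenceBasis ℂ z := by
    refine COT.exists_basis_image hQ' hG' hpQ ⟨y, hyQ⟩ hjQ (fun i => ⟨m i, D₁ i, α i, hα i, fun h4 => h3 i ((hpQ.maps y hyQ).1 _ h4 _ (hα i _)), fun y' hy' x hx h5 h6 => ?_⟩) hzw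
    exact hrel i y' hy' x hx (COT.locVar_mono hPQ' h5) h6
  have hlg : IsLogGeneralType (OnBd Q G (k := w)) := h.all Q hQ hPQ (fun h4 => h2 (hRv _ (h4 (hpQ.maps y hyQ)))) w hw hzQ
  exact logGT_up hpQ hQ' hG hG' ⟨y, hyQ⟩ hzQ hzw hlg

/-- theta functions which are `0` over `S` -/
def IsSpec (Λ : Sub k) (T : Set (Prd Λ m)) (S : Set (Torus Λ)) : Prop :=
  ∀ y₁ : Cn (k + 1), pt Λ y₁ ∉ S → (∃ p, (pt Λ y₁, p) ∈ T) → ∃ θ : Cn (k + 1) → ℂ, Differentiable ℂ θ ∧ (∀ l ∈ Λ, ∀ y, ∃ e : ℂ, θ (y + l) = e * θ y) ∧ θ y₁ ≠ 0 ∧ ∀ y, pt Λ y ∈ S → θ y = 0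

/-- The theorem on varieties of log general type. -/
def LGThm (Λ : Sub k) (T : Set (Prd Λ m)) (S : Set (Torus Λ)) : Prop :=
  ∀ {N s : ℕ} (Q : Ideal (MvPolynomial (Fin (N + 1)) ℂ)) [Q.IsPrime] (G : Fin s → MvPolynomial (Fin (N + 1)) ℂ) (u : PN N → Torus Λ) (v : PN N → PN m), Homog Q → (∀ i, ∃ n, (G i).IsHomogeneous n) →
    IsFiniteOver Q G Λ T S u v → ∀ w, 1 ≤ w → (∃ z : Fin w → FunField Q, IsTranscendenceBasis ℂ z) → IsLogGeneralType (K := FunField Q) (k := w) (OnBd Q G)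

variable {P : Ideal (MvPolynomial (Fin (N + 1)) ℂ)} {G : Fin s → MvPolynomial (Fin (N + 1)) ℂ} {u : PN N → Torus Λ} {v : PN N → PN m}

/-- A form which is `0` at the points over `S`. -/
theorem exists_form (hS : IsSpec Λ T S) (h : IsFiniteOver P G Λ T S u v) : ∃ (e : ℕ) (R : MvPolynomial (Fin (N + 1)) ℂ), R.IsHomogeneous e ∧ R ∉ P ∧ ∀ x ∈ projVar P, u x ∈ S → VanishesAt R x := by
  obtain ⟨x₀, hx₀, hx₀S⟩ := h.notOver
  obtain ⟨y₀, hy₀⟩ := QuotientAddGroup.mk_surjective (u x₀)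
  obtain ⟨θ, hθ, hq, h0, hz⟩ := hS y₀ (by rw [show pt Λ y₀ = u x₀ from hy₀]; exact hx₀S) ⟨v x₀, by rw [show pt Λ y₀ = u x₀ from hy₀]; exact h.maps x₀ hx₀⟩
  obtain ⟨D, a, b, -, hb, hbx, h1⟩ := h.regularTorus θ θ hθ hθ (fun l hl y => by
    obtain ⟨e, he⟩ := hq l hl y
    exact ⟨e, he, he⟩) x₀ hx₀.1 y₀ hy₀ h0
  refine ⟨D, b, hb, fun h2 => hbx (hx₀.1 b h2 D hb), fun x hx hxS => ?_⟩
  by_contra h2
  obtain ⟨y, hy⟩ := QuotientAddGroup.mk_surjective (u x)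
  exact (h1 x hx h2 y hy).1 (hz y (by rw [show pt Λ y = u x from hy]; exact hxS))

theorem IsFiniteOver.to (hS : IsSpec Λ T S) (h : IsFiniteOver P G Λ T S u v) : PXF.IsFiniteOver P G Λ T S u v := ⟨h.holomorphic, h.regular, h.finite, h.maps, exists_form hS h⟩

/-- closed subvarieties -/
theorem IsFiniteOver.sub {Q : Ideal (MvPolynomial (Fin (N + 1)) ℂ)} (hPQ : P ≤ Q) (h : IsFiniteOver P G Λ T S u v) {x : PN N} (hxQ : x ∈ locVar Q G) (hx : u x ∉ S) : IsFiniteOver Q G Λ T S u v := by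
  refine ⟨fun x hx hxm => ?_, fun θ θ' h1 h2 h3 x hx y hy hy0 => ?_, fun x hx => ?_, fun x hx => ?_, fun x hx => h.maps x (COT.locVar_mono hPQ hx), x, hxQ, hx⟩
  · obtain ⟨υ, hυ, h1⟩ := h.holomorphic x hx (COT.projVar_mono hPQ hxm)
    exact ⟨υ, hυ, h1.mono fun x' h2 hx' h3 => h2 hx' (COT.projVar_mono hPQ h3)⟩
  · obtain ⟨D, a, b, ha, hb, h4, h5⟩ := h.regularTorus θ θ' h1 h2 h3 x (COT.projVar_mono hPQ hx) y hy hy0
    exact ⟨D, a, b, ha, hb, h4, fun x' hx' => h5 x' (COT.projVar_mono hPQ hx')⟩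
  · obtain ⟨D, γ, h1, h2, h3⟩ := h.regular x (COT.projVar_mono hPQ hx)
    exact ⟨D, γ, h1, h2, fun x' hx' => h3 x' (COT.projVar_mono hPQ hx')⟩
  · exact (h.finite x (COT.projVar_mono hPQ hx)).subset fun x' hx' => ⟨COT.projVar_mono hPQ hx'.1, hx'.2⟩

/-- The four properties for `U` and for the varieties which dominate `U`. -/
theorem four_of {h₀ : Prop} (hspan : Submodule.span ℝ (Λ : Set (Cn (k + 1))) = ⊤) [DiscreteTopology Λ] (hS : IsSpec Λ T S) (hlg : LGThm Λ T S) (H : h₀ → PXF.IsHyperbolicModulo Λ T S) [P.IsPrime] (hP : Homog P)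
    (hG : ∀ m, ∃ n, (G m).IsHomogeneous n) {c : ℕ} (hdim : ∃ z : Fin (c + 1) → FunField P, IsTranscendenceBasis ℂ z) (h : IsFiniteOver P G Λ T S u v) : (∃ Ξ : Set (PN N), FourProperties h₀ P G Ξ) ∧
      ∀ (M s' : ℕ) (P' : Ideal (MvPolynomial (Fin (M + 1)) ℂ)) [P'.IsPrime] (G' : Fin s' → MvPolynomial (Fin (M + 1)) ℂ) (p : PN M → PN N),
        Homog P' → (∀ i, ∃ n, (G' i).IsHomogeneous n) → (∃ z : Fin (c + 1) → FunField P', IsTranscendenceBasis ℂ z) → IsDominantMap P P' G G' p → ∃ Ξ : Set (PN M), FourProperties h₀ P' G' Ξ := by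
  have hΛ := Pool.Agent.TGF.gu_lat Λ hspan
  obtain ⟨e, R, hRe, hRP, hR⟩ := exists_form hS h
  obtain ⟨x₀, hx₀, -⟩ := h.notOver
  have hne : (locVar P G).Nonempty := ⟨x₀, hx₀⟩
  have key : ∀ (Q : Ideal (MvPolynomial (Fin (N + 1)) ℂ)) [Q.IsPrime], Homog Q → P ≤ Q → ¬ locVar Q G ⊆ {x | x ∈ locVar P G ∧ VanishesAt R x} →
      ∀ w, 1 ≤ w → (∃ z : Fin w → FunField Q, IsTranscendenceBasis ℂ z) → IsLogGeneralType (OnBd Q G (k := w)) := by
    intro Q _ hQ hPQ hQR w hw hz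
    obtain ⟨x, hxQ, hx⟩ := Set.not_subset.1 hQR
    refine hlg Q G u v hQ hG (h.sub hPQ hxQ fun h0 => ?_) w hw hz
    exact hx ⟨COT.locVar_mono hPQ hxQ, hR x (COT.projVar_mono hPQ hxQ.1) h0⟩
  have hP0 : ¬ locVar P G ⊆ {x | x ∈ locVar P G ∧ VanishesAt R x} := fun h0 => hRP (Pool.Agent.H7.Bir.mem_of_open hP hG hne hRe fun x hx => (h0 hx).2)
  by_cases hh : h₀
  · have hfour : COT.FourProperties P G {x | x ∈ locVar P G ∧ VanishesAt R x} :=
      ⟨COT.gglo_form hΛ hP hG hne hdim (H hh) (h.to hS) hRe hRP hR (key P hP le_rfl hP0 (c + 1) (by omega) hdim), key⟩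
    refine ⟨⟨_, four_to hfour⟩, fun M s' P' _ G' p hP' hG' hz' hp => ?_⟩
    obtain ⟨Ξ, hΞ⟩ := COT.four_dominant hP hP' hdim hz' hG hG' hp hfour
    exact ⟨Ξ, four_to hΞ⟩
  · have halg : AlgProperties P G {x | x ∈ locVar P G ∧ VanishesAt R x} := by
      refine ⟨⟨{R}, fun S hS => ?_, ?_⟩, fun heq => hP0 heq.ge, key⟩
      · rw [Set.mem_singleton_iff.1 hS]
        exact ⟨e, hRe⟩
      · ext x
        exact ⟨fun h1 => ⟨h1.1, fun S hS => by rw [Set.mem_singleton_iff.1 hS]; exact h1.2⟩, fun h1 => ⟨h1.1, h1.2 R rfl⟩⟩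
    refine ⟨⟨_, four_alg hh hP halg⟩, fun M s' P' _ G' p hP' hG' hz' hp => ?_⟩
    obtain ⟨Ξ, hΞ⟩ := alg_dominant hP hP' hdim hz' hG hG' hp halg
    exact ⟨Ξ, four_alg hh hP' hΞ⟩

end Pool.Agent.COP
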